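import Mathlib

set_option autoImplicit false

namespace Pool.Agent.H51.Cantorval

open Set

/-- achievement set -/
def Ach (y : ℕ → ℝ) : Set ℝ := {s | ∃ A : Set ℕ, s = ∑' n, A.indicator y n}

theorem summable_ind {y : ℕ → ℝ} (hs : Summable y) (A : Set ℕ) :
    Summable (fun n => A.indicator y n) := hs.indicator A

theorem Ach_eq_range (y : ℕ → ℝ) :
    Ach y = Set.range (fun b : ℕ → Bool => ∑' n, if b n = true then y n else 0) := by
  classical
  ext s
  constructor
  · rintro ⟨A, rfl⟩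
    refine ⟨fun n => decide (n ∈ A), ?_⟩
    simp [Set.indicator_apply]
  · rintro ⟨b, rfl⟩
    refine ⟨{n | b n = true}, ?_⟩
    simp [Set.indicator_apply]

theorem Ach_compact {y : ℕ → ℝ} (h0 : ∀ n, 0 ≤ y n) (hs : Summable y) : IsCompact (Ach y) := by
  rw [Ach_eq_range]
  apply isCompact_range
  apply continuous_tsum (u := y) _ hs
  · intro n b
    split_ifs
    · rw [Real.norm_of_nonneg (h0 n)]
    · simpa using h0 n
  · intro n
    have h1 : Continuous (fun b : Bool => if b = true then y n else 0) := continuous_of_discreteTopology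
    exact h1.comp (continuous_apply n)

theorem Ach_succ {y : ℕ → ℝ} (hs : Summable y) (s : ℝ) :
    s ∈ Ach y ↔ s ∈ Ach (fun n => y (n+1)) ∨ s - y 0 ∈ Ach (fun n => y (n+1)) := by
  classical
  constructor
  · rintro ⟨A, rfl⟩
    rw [(summable_ind hs A).tsum_eq_zero_add]
    by_cases h : 0 ∈ A
    · right
      refine ⟨{n | n+1 ∈ A}, ?_⟩
      simp only [Set.indicator_of_mem h, add_sub_cancel_left]
      apply tsum_congr; intro n
      simp [Set.indicator_apply]
    · left
      refine ⟨{n | n+1 ∈ A}, ?_⟩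
      simp only [Set.indicator_of_notMem h, zero_add]
      apply tsum_congr; intro n
      simp [Set.indicator_apply]
  · rintro (⟨A, hA⟩ | ⟨A, hA⟩)
    · refine ⟨{n | ∃ m ∈ A, n = m+1}, ?_⟩
      rw [(summable_ind hs _).tsum_eq_zero_add, hA]
      rw [Set.indicator_of_notMem (by rintro ⟨m, _, h⟩; omega), zero_add]
      apply tsum_congr; intro n
      simp [Set.indicator_apply]
    · refine ⟨{n | n = 0 ∨ ∃ m ∈ A, n = m+1}, ?_⟩
      rw [(summable_ind hs _).tsum_eq_zero_add]
      rw [Set.indicator_of_mem (show 0 ∈ {n | n = 0 ∨ ∃ m ∈ A, n = m+1} from Or.inl rfl)]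
      rw [sub_eq_iff_eq_add'] at hA
      rw [hA]
      congr 1
      apply tsum_congr; intro n
      simp [Set.indicator_apply]

theorem Ach_scale {y : ℕ → ℝ} (c : ℝ) (hc : c ≠ 0) (s : ℝ) :
    s ∈ Ach (fun n => c * y n) ↔ s / c ∈ Ach y := by
  classical
  constructor
  · rintro ⟨A, rfl⟩
    refine ⟨A, ?_⟩
    rw [div_eq_iff hc, mul_comm, ← tsum_mul_left]
    apply tsum_congr; intro n
    simp [Set.indicator_apply]
  · rintro ⟨A, hA⟩
    refine ⟨A, ?_⟩
    rw [div_eq_iff hc, mul_comm, ← tsum_mul_left] at hA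
    rw [hA]
    apply tsum_congr; intro n
    simp [Set.indicator_apply]

/-- terms of the Guthrie–Nymann series: 3/4, 2/4, 3/16, 2/16, ... -/
noncomputable def z (n : ℕ) : ℝ := (if n % 2 = 0 then 3 else 2) * (1/4)^(n/2+1)

theorem z_pos (n : ℕ) : 0 < z n := by
  unfold z; split_ifs <;> positivity

theorem z_add_two (n : ℕ) : z (n+2) = (1/4) * z n := by
  unfold z
  rw [Nat.add_mod_right, Nat.add_div_right _ (by norm_num)]
  rw [pow_succ]
  ring

theorem z_summable : Summable z := by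
  have h : ∀ n, z n ≤ 3 * (1/2)^n := by
    intro n
    induction n using Nat.twoStepInduction with
    | zero => norm_num [z]
    | one => norm_num [z]
    | more n h1 _ =>
      rw [z_add_two, pow_add]
      nlinarith [pow_pos (show (0:ℝ) < 1/2 by norm_num) n]
  apply Summable.of_nonneg_of_le (fun n => (z_pos n).le) h
  exact (summable_geometric_of_lt_one (by norm_num) (by norm_num)).mul_left 3

/-- the Guthrie–Nymann Cantorval -/
def T : Set ℝ := Ach z

theorem T_compact : IsCompact T := Ach_compact (fun n => (z_pos n).le) z_summable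

theorem T_closed : IsClosed T := T_compact.isClosed

theorem zero_mem : (0:ℝ) ∈ T := ⟨∅, by simp⟩

theorem T_iff (t : ℝ) : t ∈ T ↔ (4*t ∈ T ∨ 4*t - 2 ∈ T ∨ 4*t - 3 ∈ T ∨ 4*t - 5 ∈ T) := by
  have hs1 : Summable (fun n => z (n+1)) := (summable_nat_add_iff 1).mpr z_summable
  have h2 : (fun n => z (n+1+1)) = (fun n => (1/4) * z n) := by
    funext n; exact z_add_two n
  have key : ∀ s, s ∈ Ach (fun n => z (n+1+1)) ↔ 4*s ∈ T := by
    intro s
    rw [h2, Ach_scale (1/4) (by norm_num)]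
    unfold T
    rw [show s / (1/4) = 4*s by ring]
  unfold T
  rw [Ach_succ z_summable t, Ach_succ hs1 t, Ach_succ hs1 (t - z 0), key, key, key, key]
  have z0 : z 0 = 3/4 := by norm_num [z]
  have z1 : z (0+1) = 2/4 := by norm_num [z]
  rw [z0, z1, show 4 * (t - 2/4) = 4*t-2 by ring, show 4 * (t - 3/4) = 4*t-3 by ring,
    show 4 * (t - 3/4 - 2/4) = 4*t - 5 by ring]
  unfold T
  tauto

theorem T_nonneg {t : ℝ} (ht : t ∈ T) : 0 ≤ t := by
  obtain ⟨A, rfl⟩ := ht
  apply tsum_nonneg; intro n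
  apply Set.indicator_nonneg; intro n _; exact (z_pos n).le

theorem T_le {t : ℝ} (ht : t ∈ T) : t ≤ 5/3 := by
  -- compactness: maximum M satisfies M ≤ (5+M)/4
  obtain ⟨M, hM, hmax⟩ := T_compact.exists_isGreatest ⟨t, ht⟩
  have h1 := hmax ht
  have h2 : M ≤ 5/3 := by
    rcases (T_iff M).mp hM with h | h | h | h <;> have := hmax h <;> linarith
  linarith

theorem mem0 {t : ℝ} (ht : t ∈ T) : t/4 ∈ T := by
  rw [T_iff]; left; rwa [show 4*(t/4) = t by ring]
theorem mem2 {t : ℝ} (ht : t ∈ T) : (2+t)/4 ∈ T := by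
  rw [T_iff]; right; left; rwa [show 4*((2+t)/4) - 2 = t by ring]
theorem mem3 {t : ℝ} (ht : t ∈ T) : (3+t)/4 ∈ T := by
  rw [T_iff]; right; right; left; rwa [show 4*((3+t)/4) - 3 = t by ring]
theorem mem5 {t : ℝ} (ht : t ∈ T) : (5+t)/4 ∈ T := by
  rw [T_iff]; right; right; right; rwa [show 4*((5+t)/4) - 5 = t by ring]

/-- lower part -/
theorem low {t : ℝ} (ht : t ∈ T) (h : t < 1/2) : 4*t ∈ T ∧ t ≤ 5/12 := by
  rcases (T_iff t).mp ht with h1 | h1 | h1 | h1
  · exact ⟨h1, by have := T_le h1; linarith⟩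
  all_goals have := T_nonneg h1; linarith

theorem gap1 {t : ℝ} (h1 : 5/12 < t) (h2 : t < 1/2) : t ∉ T := by
  intro ht; have := (low ht h2).2; linarith

theorem mid {t : ℝ} (ht : t ∈ T) (h1 : 5/12 < t) (h2 : t < 3/4) : 4*t - 2 ∈ T := by
  rcases (T_iff t).mp ht with h | h | h | h
  · have := T_le h; linarith
  · exact h
  all_goals have := T_nonneg h; linarith

theorem mid3 {t : ℝ} (ht : t ∈ T) (h1 : 11/12 < t) (h2 : t < 5/4) : 4*t - 3 ∈ T ∧ t ≤ 7/6 := by
  rcases (T_iff t).mp ht with h | h | h | h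
  · have := T_le h; linarith
  · have := T_le h; linarith
  · exact ⟨h, by have := T_le h; linarith⟩
  · have := T_nonneg h; linarith

theorem high {t : ℝ} (ht : t ∈ T) (h1 : 7/6 < t) : 4*t - 5 ∈ T ∧ 5/4 ≤ t := by
  rcases (T_iff t).mp ht with h | h | h | h
  · have := T_le h; linarith
  · have := T_le h; linarith
  · have := T_le h; linarith
  · exact ⟨h, by have := T_nonneg h; linarith⟩

/-- approximate tiling property -/
theorem approx (n : ℕ) : ∀ y : ℝ, 0 ≤ y → y ≤ 1 →
    ∃ t ∈ T, |t - y| ≤ 2 * (1/4)^n ∨ |t - (y+1)| ≤ 2 * (1/4)^n := by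
  induction n with
  | zero =>
    intro y h0 h1
    refine ⟨0, zero_mem, Or.inl ?_⟩
    rw [abs_le]; constructor <;> linarith
  | succ n ih =>
    intro y h0 h1
    have hp : (1/4 : ℝ)^(n+1) = (1/4)^n / 4 := by rw [pow_succ]; ring
    have main : ∀ j : ℝ, 0 ≤ 4*y - j → 4*y - j ≤ 1 → (j = 0 ∨ j = 1 ∨ j = 2 ∨ j = 3) →
        ∃ t ∈ T, |t - y| ≤ 2 * (1/4)^(n+1) ∨ |t - (y+1)| ≤ 2 * (1/4)^(n+1) := by
      intro j hj0 hj1 hj
      obtain ⟨t, ht, h⟩ := ih (4*y - j) hj0 hj1
      rw [hp]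
      rcases h with h | h
      · rw [abs_le] at h
        rcases hj with rfl | rfl | rfl | rfl
        · exact ⟨t/4, mem0 ht, Or.inl (by rw [abs_le]; constructor <;> linarith)⟩
        · exact ⟨(5+t)/4, mem5 ht, Or.inr (by rw [abs_le]; constructor <;> linarith)⟩
        · exact ⟨(2+t)/4, mem2 ht, Or.inl (by rw [abs_le]; constructor <;> linarith)⟩
        · exact ⟨(3+t)/4, mem3 ht, Or.inl (by rw [abs_le]; constructor <;> linarith)⟩
      · rw [abs_le] at h
        rcases hj with rfl | rfl | rfl | rfl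
        · exact ⟨(3+t)/4, mem3 ht, Or.inr (by rw [abs_le]; constructor <;> linarith)⟩
        · exact ⟨t/4, mem0 ht, Or.inl (by rw [abs_le]; constructor <;> linarith)⟩
        · exact ⟨(5+t)/4, mem5 ht, Or.inr (by rw [abs_le]; constructor <;> linarith)⟩
        · exact ⟨(2+t)/4, mem2 ht, Or.inl (by rw [abs_le]; constructor <;> linarith)⟩
    rcases le_total (4*y) 1 with a | a
    · exact main 0 (by linarith) (by linarith) (by simp)
    rcases le_total (4*y) 2 with b | b
    · exact main 1 (by linarith) (by linarith) (by simp)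
    rcases le_total (4*y) 3 with c | c
    · exact main 2 (by linarith) (by linarith) (by simp)
    · exact main 3 (by linarith) (by linarith) (by simp)

theorem tile {y : ℝ} (h0 : 0 ≤ y) (h1 : y ≤ 1) : y ∈ T ∨ y + 1 ∈ T := by
  by_contra hcon
  push Not at hcon
  obtain ⟨hy, hy1⟩ := hcon
  obtain ⟨ε1, hε1, hb1⟩ := Metric.isOpen_iff.mp T_closed.isOpen_compl y hy
  obtain ⟨ε2, hε2, hb2⟩ := Metric.isOpen_iff.mp T_closed.isOpen_compl (y+1) hy1
  obtain ⟨n, hn⟩ := exists_pow_lt_of_lt_one (show 0 < min ε1 ε2 / 2 by positivity)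
    (show (1/4 : ℝ) < 1 by norm_num)
  have hm1 := min_le_left ε1 ε2
  have hm2 := min_le_right ε1 ε2
  obtain ⟨t, ht, h | h⟩ := approx n y h0 h1
  · exact hb1 (by rw [Metric.mem_ball, Real.dist_eq]; linarith) ht
  · exact hb2 (by rw [Metric.mem_ball, Real.dist_eq]; linarith) ht

theorem two_thirds : (2/3 : ℝ) ∈ T := by
  rcases tile (y := 2/3) (by norm_num) (by norm_num) with h | h
  · exact h
  · -- 5/3 ∈ T; derive 2/3 by contraction from closedness
    by_contra hcon
    obtain ⟨ε, hε, hb⟩ := Metric.isOpen_iff.mp T_closed.isOpen_compl (2/3) hcon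
    obtain ⟨n, hn⟩ := exists_pow_lt_of_lt_one hε (show (1/4 : ℝ) < 1 by norm_num)
    have : ∀ k : ℕ, (2/3 : ℝ) + (1/4)^k ∈ T := by
      intro k
      induction k with
      | zero => norm_num at h ⊢; exact h
      | succ k ih =>
        have := mem2 ih
        rwa [show (2 + (2/3 + (1/4 : ℝ)^k))/4 = 2/3 + (1/4)^(k+1) by rw [pow_succ]; ring] at this
    apply hb _ (this n)
    rw [Metric.mem_ball, Real.dist_eq, add_sub_cancel_left, abs_of_pos (by positivity)]
    exact hn

theorem Icc_sub : Icc (2/3 : ℝ) 1 ⊆ T := by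
  intro y hy
  rcases tile (y := y) (by linarith [hy.1]) hy.2 with h | h
  · exact h
  · have := T_le h
    have hy' : y = 2/3 := by linarith [hy.1]
    rw [hy']; exact two_thirds

theorem one_mem : (1:ℝ) ∈ T := Icc_sub ⟨by norm_num, le_refl _⟩

/-- local self-similarity on the left of 2/3 -/
theorem near23 {τ : ℝ} (h0 : 0 ≤ τ) (h1 : τ < 1/4) : 2/3 - τ ∈ T ↔ 2/3 - 4*τ ∈ T := by
  constructor
  · intro h
    have := mid h (by linarith) (by linarith)
    rwa [show 4*(2/3 - τ) - 2 = 2/3 - 4*τ by ring] at this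
  · intro h
    have := mem2 h
    rwa [show (2 + (2/3 - 4*τ))/4 = 2/3 - τ by ring] at this

/-- local self-similarity on the left of 1/3 -/
theorem near13 {τ : ℝ} (h0 : 0 ≤ τ) (h1 : τ < 1/24) (h : 1/3 - τ ∈ T) : 1/3 - 16*τ ∈ T := by
  have h3 := (low h (by linarith)).1
  have h4 := (high h3 (by linarith)).1
  rwa [show 4*(4*(1/3 - τ)) - 5 = 1/3 - 16*τ by ring] at h4

theorem near13' {τ : ℝ} (h : 1/3 - 16*τ ∈ T) : 1/3 - τ ∈ T := by
  have := mem0 (mem5 h)
  rwa [show (5 + (1/3 - 16*τ))/4/4 = 1/3 - τ by ring] at this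

theorem pow16 (k : ℕ) (c : ℝ) (hc0 : 0 ≤ c) : 0 ≤ c * (1/16)^k ∧ c * (1/16)^k ≤ c := by
  have h1 : (0:ℝ) ≤ (1/16)^k := by positivity
  have h2 : ((1:ℝ)/16)^k ≤ 1 := pow_le_one₀ (by norm_num) (by norm_num)
  exact ⟨mul_nonneg hc0 h1, by nlinarith⟩

/-- transfer of non-membership near 2/3 through scales -/
theorem scale23 (c : ℝ) (h0 : 0 ≤ c) (h1 : c < 1/4) (h : 2/3 - c ∉ T) (k : ℕ) :
    2/3 - c * (1/16)^k ∉ T := by
  induction k with
  | zero => simpa using h
  | succ k ih =>
    intro hc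
    apply ih
    have hp := pow16 k c h0
    have e : c * (1/16)^(k+1) = c * (1/16)^k / 16 := by rw [pow_succ]; ring
    rw [e] at hc
    rw [near23 (by linarith [hp.1]) (by linarith [hp.2])] at hc
    rw [near23 (by linarith [hp.1]) (by linarith [hp.2])] at hc
    rwa [show 4 * (4 * (c * (1/16)^k / 16)) = c * (1/16)^k by ring] at hc

theorem scale13 (c : ℝ) (h0 : 0 ≤ c) (h1 : c < 1/3) (h : 1/3 - c ∉ T) (k : ℕ) :
    1/3 - c * (1/16)^k ∉ T := by
  induction k with
  | zero => simpa using h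
  | succ k ih =>
    intro hc
    apply ih
    have hp := pow16 k c h0
    have e : c * (1/16)^(k+1) = c * (1/16)^k / 16 := by rw [pow_succ]; ring
    rw [e] at hc
    have := near13 (by linarith [hp.1]) (by linarith [hp.2]) hc
    rwa [show 16 * (c * (1/16)^k / 16) = c * (1/16)^k by ring] at this

theorem scale13' (c : ℝ) (h : 1/3 - c ∈ T) (k : ℕ) : 1/3 - c * (1/16)^k ∈ T := by
  induction k with
  | zero => simpa using h
  | succ k ih =>
    apply near13'
    rwa [show 16 * (c * (1/16)^(k+1)) = c * (1/16)^k by rw [pow_succ]; ring]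

/-- the main set -/
def E : Set ℝ := {s | s ∈ T ∨ s - 1/3 ∈ T}

/-- the sequence 1/3, 3/4, 2/4, 3/16, 2/16, ... -/
noncomputable def x : ℕ → ℝ
  | 0 => 1/3
  | n+1 => z n

theorem x_pos (n : ℕ) : 0 < x n := by
  cases n with
  | zero => norm_num [x]
  | succ n => exact z_pos n

theorem x_summable : Summable x := (summable_nat_add_iff 1).mp z_summable

theorem E_eq : E = {s | ∃ A : Set ℕ, s = ∑' n, A.indicator x n} := by
  change E = Ach x
  ext s
  rw [Ach_succ x_summable]
  rfl

theorem E_eq_union : E = T ∪ (fun t => t + 1/3) '' T := by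
  ext s
  constructor
  · rintro (h | h)
    · exact Or.inl h
    · exact Or.inr ⟨s - 1/3, h, by simp⟩
  · rintro (h | ⟨t, h, rfl⟩)
    · exact Or.inl h
    · right; simpa using h

theorem E_compact : IsCompact E := by
  rw [E_eq_union]
  exact T_compact.union (T_compact.image (by fun_prop))

theorem E_nonneg {s : ℝ} (h : s ∈ E) : 0 ≤ s := by
  rcases h with h | h
  · exact T_nonneg h
  · have := T_nonneg h; linarith

theorem E_le {s : ℝ} (h : s ∈ E) : s ≤ 2 := by
  rcases h with h | h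
  · have := T_le h; linarith
  · have := T_le h; linarith

/-- closure of interior of `T` -/
theorem T_approx (n : ℕ) : ∀ t ∈ T, ∃ f : ℝ, |t - f| ≤ 2 * (1/4)^n ∧
    (∀ s ∈ T, f + (1/4)^n * s ∈ T) := by
  induction n with
  | zero =>
    intro t ht
    refine ⟨0, ?_, ?_⟩
    · rw [abs_le]; constructor <;> linarith [T_nonneg ht, T_le ht]
    · intro s hs; simpa using hs
  | succ n ih =>
    intro t ht
    have hp : (1/4 : ℝ)^(n+1) = (1/4)^n / 4 := by rw [pow_succ]; ring
    rw [hp]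
    rcases (T_iff t).mp ht with h | h | h | h
    · obtain ⟨f, hf, hs⟩ := ih _ h
      rw [abs_le] at hf
      refine ⟨f/4, by rw [abs_le]; constructor <;> linarith, ?_⟩
      intro s hsT
      have := mem0 (hs s hsT)
      rwa [show (f + (1/4)^n * s)/4 = f/4 + (1/4)^n/4 * s by ring] at this
    · obtain ⟨f, hf, hs⟩ := ih _ h
      rw [abs_le] at hf
      refine ⟨(2+f)/4, by rw [abs_le]; constructor <;> linarith, ?_⟩
      intro s hsT
      have := mem2 (hs s hsT)
      rwa [show (2 + (f + (1/4)^n * s))/4 = (2+f)/4 + (1/4)^n/4 * s by ring] at this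
    · obtain ⟨f, hf, hs⟩ := ih _ h
      rw [abs_le] at hf
      refine ⟨(3+f)/4, by rw [abs_le]; constructor <;> linarith, ?_⟩
      intro s hsT
      have := mem3 (hs s hsT)
      rwa [show (3 + (f + (1/4)^n * s))/4 = (3+f)/4 + (1/4)^n/4 * s by ring] at this
    · obtain ⟨f, hf, hs⟩ := ih _ h
      rw [abs_le] at hf
      refine ⟨(5+f)/4, by rw [abs_le]; constructor <;> linarith, ?_⟩
      intro s hsT
      have := mem5 (hs s hsT)
      rwa [show (5 + (f + (1/4)^n * s))/4 = (5+f)/4 + (1/4)^n/4 * s by ring] at this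

/-- points of `T` are limits of centres of small open intervals inside `T` -/
theorem T_interior {t : ℝ} (ht : t ∈ T) {ε : ℝ} (hε : 0 < ε) :
    ∃ c r : ℝ, 0 < r ∧ |t - c| < ε ∧ Ioo (c - r) (c + r) ⊆ T := by
  obtain ⟨n, hn⟩ := exists_pow_lt_of_lt_one (show 0 < ε/4 by linarith)
    (show (1/4 : ℝ) < 1 by norm_num)
  obtain ⟨f, hf, hs⟩ := T_approx n t ht
  have hp : (0:ℝ) < (1/4)^n := by positivity
  refine ⟨f + (1/4)^n * (5/6), (1/4)^n * (1/6), by positivity, ?_, ?_⟩
  · rw [abs_le] at hf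
    rw [abs_lt]; constructor <;> linarith [hf.1, hf.2]
  · intro y hy
    have h1 : (y - f) / (1/4)^n ∈ T := by
      apply Icc_sub
      constructor
      · rw [le_div_iff₀ hp]; linarith [hy.1]
      · rw [div_le_iff₀ hp]; linarith [hy.2]
    have := hs _ h1
    rwa [mul_div_cancel₀ _ hp.ne', add_sub_cancel] at this

theorem E_closure : closure (interior E) = E := by
  apply subset_antisymm
  · exact closure_minimal interior_subset E_compact.isClosed
  · intro s hs
    rw [Metric.mem_closure_iff]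
    intro ε hε
    rcases hs with h | h
    · obtain ⟨c, r, hr, h1, h2⟩ := T_interior h hε
      refine ⟨c, ?_, by rw [Real.dist_eq]; exact h1⟩
      rw [mem_interior]
      exact ⟨Ioo (c-r) (c+r), fun y hy => Or.inl (h2 hy), isOpen_Ioo, by constructor <;> linarith⟩
    · obtain ⟨c, r, hr, h1, h2⟩ := T_interior h hε
      refine ⟨c + 1/3, ?_, by rw [Real.dist_eq]; rwa [show s - (c + 1/3) = s - 1/3 - c by ring]⟩
      rw [mem_interior]
      refine ⟨Ioo (c+1/3-r) (c+1/3+r), fun y hy => Or.inr (h2 ⟨by linarith [hy.1], by linarith [hy.2]⟩),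
        isOpen_Ioo, by constructor <;> linarith⟩

/-- arbitrarily small positive numbers outside `T` -/
theorem small_gap {ε : ℝ} (hε : 0 < ε) : ∃ g : ℝ, 0 < g ∧ g < ε ∧ g ∉ T := by
  obtain ⟨n, hn⟩ := exists_pow_lt_of_lt_one hε (show (1/4 : ℝ) < 1 by norm_num)
  have hp : (0:ℝ) < (1/4)^n := by positivity
  refine ⟨(11/24) * (1/4)^n, by positivity, by linarith, ?_⟩
  clear hn
  induction n with
  | zero => exact gap1 (by norm_num) (by norm_num)
  | succ n ih =>
    intro hc
    have hp' : (0:ℝ) < (1/4)^n := by positivity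
    have hle : ((1:ℝ)/4)^(n+1) ≤ 1 := pow_le_one₀ (by norm_num) (by norm_num)
    have := (low hc (by linarith)).1
    apply ih hp'
    rwa [show 4 * (11/24 * (1/4 : ℝ)^(n+1)) = 11/24 * (1/4)^n by rw [pow_succ]; ring] at this

/-- right germ of `T` at a left-isolated point -/
theorem left_iso (n : ℕ) : ∀ v ∈ T, (∀ s ∈ T, s < v → s ≤ v - 2 * (1/4)^n) →
    ∃ ε : ℝ, 0 < ε ∧ ∀ s, 0 ≤ s → s ≤ ε → v + s ∈ T → s ∈ T := by
  induction n with
  | zero =>
    intro v hv h
    have hv0 : v = 0 := by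
      by_contra hne
      have hpos : 0 < v := lt_of_le_of_ne (T_nonneg hv) (Ne.symm hne)
      have := h 0 zero_mem hpos
      have := T_le hv
      norm_num at *
      linarith
    refine ⟨1, one_pos, ?_⟩
    intro s _ _ hs
    rw [hv0] at hs; simpa using hs
  | succ n ih =>
    intro v hv h
    have hp : (1/4 : ℝ)^(n+1) = (1/4)^n / 4 := by rw [pow_succ]; ring
    -- for each digit d, a radius
    have digit : ∀ d : ℝ, (∀ t ∈ T, (d + t)/4 ∈ T) →
        ∃ ε : ℝ, 0 < ε ∧ ∀ s, 0 ≤ s → s ≤ ε → 4*(v+s) - d ∈ T → s ∈ T := by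
      intro d hd
      by_cases hin : 4*v - d ∈ T
      · obtain ⟨ε, hε, h'⟩ := ih (4*v - d) hin (by
          intro s hs hlt
          have := h ((d+s)/4) (hd s hs) (by linarith)
          rw [hp] at this; linarith)
        refine ⟨ε/4, by linarith, ?_⟩
        intro s hs0 hs1 hmem
        have := h' (4*s) (by linarith) (by linarith) (by rwa [show 4*v - d + 4*s = 4*(v+s) - d by ring])
        have := mem0 this
        rwa [show 4*s/4 = s by ring] at this
      · obtain ⟨ε, hε, hb⟩ := Metric.isOpen_iff.mp T_closed.isOpen_compl (4*v - d) hin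
        refine ⟨ε/8, by linarith, ?_⟩
        intro s hs0 hs1 hmem
        exfalso
        apply hb _ hmem
        rw [Metric.mem_ball, Real.dist_eq, abs_lt]; constructor <;> linarith
    obtain ⟨e0, he0, h0⟩ := digit 0 (fun t ht => by simpa using mem0 ht)
    obtain ⟨e2, he2, h2⟩ := digit 2 (fun t ht => mem2 ht)
    obtain ⟨e3, he3, h3⟩ := digit 3 (fun t ht => mem3 ht)
    obtain ⟨e5, he5, h5⟩ := digit 5 (fun t ht => mem5 ht)
    refine ⟨min (min e0 e2) (min e3 e5), by positivity, ?_⟩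
    intro s hs0 hs1 hmem
    simp only [le_min_iff] at hs1
    rcases (T_iff _).mp hmem with h' | h' | h' | h'
    · exact h0 s hs0 hs1.1.1 (by simpa using h')
    · exact h2 s hs0 hs1.1.2 h'
    · exact h3 s hs0 hs1.2.1 h'
    · exact h5 s hs0 hs1.2.2 h'

theorem left_iso' {v η : ℝ} (hv : v ∈ T) (hη : 0 < η) (h : ∀ s ∈ T, s < v → s ≤ v - η) :
    ∃ ε : ℝ, 0 < ε ∧ ∀ s, 0 ≤ s → s ≤ ε → v + s ∈ T → s ∈ T := by
  obtain ⟨n, hn⟩ := exists_pow_lt_of_lt_one (show 0 < η/2 by linarith)
    (show (1/4 : ℝ) < 1 by norm_num)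
  exact left_iso n v hv (fun s hs hlt => by linarith [h s hs hlt])

/-- right germ of `E` at a left-isolated point -/
theorem E_left_iso {v η : ℝ} (hη : 0 < η) (h : ∀ s ∈ E, s < v → s ≤ v - η) :
    ∃ ε : ℝ, 0 < ε ∧ ∀ s, 0 ≤ s → s ≤ ε → v + s ∈ E → s ∈ T := by
  have part : ∀ w : ℝ, (∀ s ∈ T, s < w → s ≤ w - η) →
      ∃ ε : ℝ, 0 < ε ∧ ∀ s, 0 ≤ s → s ≤ ε → w + s ∈ T → s ∈ T := by
    intro w hw
    by_cases hin : w ∈ T
    · exact left_iso' hin hη hw
    · obtain ⟨ε, hε, hb⟩ := Metric.isOpen_iff.mp T_closed.isOpen_compl w hin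
      refine ⟨ε/2, by linarith, ?_⟩
      intro s hs0 hs1 hmem
      exfalso
      apply hb _ hmem
      rw [Metric.mem_ball, Real.dist_eq, abs_lt]; constructor <;> linarith
  obtain ⟨e1, he1, h1⟩ := part v (fun s hs hlt => h s (Or.inl hs) hlt)
  obtain ⟨e2, he2, h2⟩ := part (v - 1/3) (fun s hs hlt => by
    have := h (s + 1/3) (Or.inr (by simpa using hs)) (by linarith)
    linarith)
  refine ⟨min e1 e2, by positivity, ?_⟩
  intro s hs0 hs1 hmem
  rw [le_min_iff] at hs1
  rcases hmem with h' | h'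
  · exact h1 s hs0 hs1.1 h'
  · exact h2 s hs0 hs1.2 (by rwa [show v - 1/3 + s = v + s - 1/3 by ring])

/-- `E` is symmetric about 1 -/
theorem T_symm {t : ℝ} (ht : t ∈ T) : 5/3 - t ∈ T := by
  -- approximation argument
  have key : ∀ n : ℕ, ∀ t ∈ T, ∃ s ∈ T, |5/3 - t - s| ≤ 2 * (1/4)^n := by
    intro n
    induction n with
    | zero =>
      intro t ht
      exact ⟨0, zero_mem, by rw [abs_le]; constructor <;> linarith [T_nonneg ht, T_le ht]⟩
    | succ n ih =>
      intro t ht
      have hp : (1/4 : ℝ)^(n+1) = (1/4)^n / 4 := by rw [pow_succ]; ring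
      rw [hp]
      rcases (T_iff t).mp ht with h | h | h | h
      · obtain ⟨s, hs, hb⟩ := ih _ h
        rw [abs_le] at hb
        exact ⟨_, mem5 hs, by rw [abs_le]; constructor <;> linarith⟩
      · obtain ⟨s, hs, hb⟩ := ih _ h
        rw [abs_le] at hb
        exact ⟨_, mem3 hs, by rw [abs_le]; constructor <;> linarith⟩
      · obtain ⟨s, hs, hb⟩ := ih _ h
        rw [abs_le] at hb
        exact ⟨_, mem2 hs, by rw [abs_le]; constructor <;> linarith⟩
      · obtain ⟨s, hs, hb⟩ := ih _ h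
        rw [abs_le] at hb
        exact ⟨_, mem0 hs, by rw [abs_le]; constructor <;> linarith⟩
  by_contra hcon
  obtain ⟨ε, hε, hb⟩ := Metric.isOpen_iff.mp T_closed.isOpen_compl (5/3 - t) hcon
  obtain ⟨n, hn⟩ := exists_pow_lt_of_lt_one (show 0 < ε/2 by linarith)
    (show (1/4 : ℝ) < 1 by norm_num)
  obtain ⟨s, hs, h⟩ := key n t ht
  apply hb _ hs
  rw [Metric.mem_ball, Real.dist_eq, abs_sub_comm]; linarith

theorem E_symm {s : ℝ} (hs : s ∈ E) : 2 - s ∈ E := by
  rcases hs with h | h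
  · right
    have := T_symm h
    rwa [show 5/3 - s = 2 - s - 1/3 by ring] at this
  · left
    have := T_symm h
    rwa [show 5/3 - (s - 1/3) = 2 - s by ring] at this

/-- `y` is a one-point component of `E`, phrased with intervals -/
def Triv (y : ℝ) : Prop :=
  y ∈ E ∧ (∀ w, w < y → ¬ Icc w y ⊆ E) ∧ (∀ w, y < w → ¬ Icc y w ⊆ E)

theorem Triv.symm {y : ℝ} (h : Triv y) : Triv (2 - y) := by
  obtain ⟨h1, h2, h3⟩ := h
  refine ⟨E_symm h1, ?_, ?_⟩
  · intro w hw hsub
    apply h3 (2 - w) (by linarith)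
    intro u hu
    have := E_symm (hsub (show 2 - u ∈ Icc w (2 - y) from ⟨by linarith [hu.2], by linarith [hu.1]⟩))
    rwa [sub_sub_cancel] at this
  · intro w hw hsub
    apply h2 (2 - w) (by linarith)
    intro u hu
    have := E_symm (hsub (show 2 - u ∈ Icc (2 - y) w from ⟨by linarith [hu.2], by linarith [hu.1]⟩))
    rwa [sub_sub_cancel] at this

theorem Triv.comp {y : ℝ} (h : Triv y) : connectedComponentIn E y = {y} := by
  obtain ⟨h1, h2, h3⟩ := h
  have hpc : (connectedComponentIn E y).OrdConnected := isPreconnected_connectedComponentIn.ordConnected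
  have hy : y ∈ connectedComponentIn E y := mem_connectedComponentIn h1
  have hsub : connectedComponentIn E y ⊆ E := connectedComponentIn_subset E y
  apply subset_antisymm
  · intro w hw
    rcases lt_trichotomy w y with hlt | heq | hgt
    · exact absurd ((hpc.out hw hy).trans hsub) (h2 w hlt)
    · exact heq
    · exact absurd ((hpc.out hy hw).trans hsub) (h3 w hgt)
  · rintro w rfl; exact hy

theorem not_left_iso {α β : ℝ} (hαβ : α < β) (hsub : Icc α β ⊆ E) {η : ℝ} (hη : 0 < η) :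
    ∃ s ∈ E, s < α ∧ α - η < s := by
  by_contra hcon
  push Not at hcon
  obtain ⟨ε, hε, h⟩ := E_left_iso (v := α) hη (fun s hs hlt => hcon s hs hlt)
  obtain ⟨g, hg0, hg1, hg2⟩ := small_gap (show 0 < min ε (β - α) from lt_min hε (by linarith))
  rw [lt_min_iff] at hg1
  exact hg2 (h g hg0.le hg1.1.le (hsub ⟨by linarith, by linarith [hg1.2]⟩))

theorem left_endpoint {α β : ℝ} (hαβ : α < β) (hsub : Icc α β ⊆ E)
    (hleft : ∀ y, y < α → ¬ Icc y α ⊆ E) {δ : ℝ} (hδ : 0 < δ) :
    ∃ v, Triv v ∧ v < α ∧ α - δ < v := by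
  obtain ⟨s, hsE, hsα, hsδ⟩ := not_left_iso hαβ hsub hδ
  obtain ⟨z, hz, hzE⟩ := Set.not_subset.mp (hleft s hsα)
  have hαE : α ∈ E := hsub ⟨le_refl _, hαβ.le⟩
  have hzα : z < α := lt_of_le_of_ne hz.2 (fun h => hzE (h ▸ hαE))
  -- v = inf (E ∩ [z, α])
  have hcomp : IsCompact (E ∩ Icc z α) := E_compact.inter_right isClosed_Icc
  obtain ⟨v, hv, hmin⟩ := hcomp.exists_isLeast ⟨α, hαE, hzα.le, le_refl _⟩
  have hzv : z < v := lt_of_le_of_ne hv.2.1 (fun h => hzE (h ▸ hv.1))
  have hgap : ∀ w ∈ E, w < v → w ≤ v - (v - z) := by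
    intro w hw hlt
    by_contra hcon
    push Not at hcon
    have := hmin ⟨hw, by linarith, by linarith [hv.2.2]⟩
    linarith
  have hvα : v < α := by
    refine lt_of_le_of_ne hv.2.2 ?_
    intro h
    obtain ⟨s', hs', hlt, hgt⟩ := not_left_iso hαβ hsub (show 0 < v - z by linarith)
    have := hgap s' hs' (by linarith)
    linarith
  refine ⟨v, ⟨hv.1, ?_, ?_⟩, hvα, by linarith [hz.1]⟩
  · intro w hw hsubw
    have h1 : max w z < v := max_lt hw hzv
    have hm : (max w z + v)/2 ∈ E := hsubw ⟨by linarith [le_max_left w z], by linarith⟩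
    have := hgap _ hm (by linarith)
    linarith [le_max_right w z]
  · intro w hw hsubw
    obtain ⟨ε, hε, h⟩ := E_left_iso (v := v) (show 0 < v - z by linarith) hgap
    obtain ⟨g, hg0, hg1, hg2⟩ := small_gap (show 0 < min ε (w - v) from lt_min hε (by linarith))
    rw [lt_min_iff] at hg1
    exact hg2 (h g hg0.le hg1.1.le (hsubw ⟨by linarith, by linarith [hg1.2]⟩))

theorem right_endpoint {α β : ℝ} (hαβ : α < β) (hsub : Icc α β ⊆ E)
    (hright : ∀ y, β < y → ¬ Icc β y ⊆ E) {δ : ℝ} (hδ : 0 < δ) :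
    ∃ v, Triv v ∧ β < v ∧ v < β + δ := by
  obtain ⟨v, hv, h1, h2⟩ := left_endpoint (α := 2 - β) (β := 2 - α) (by linarith)
    (by
      intro u hu
      have := E_symm (hsub (show 2 - u ∈ Icc α β from ⟨by linarith [hu.2], by linarith [hu.1]⟩))
      rwa [sub_sub_cancel] at this)
    (by
      intro y hy hsuby
      apply hright (2 - y) (by linarith)
      intro u hu
      have := E_symm (hsuby (show 2 - u ∈ Icc y (2 - β) from ⟨by linarith [hu.2], by linarith [hu.1]⟩))
      rwa [sub_sub_cancel] at this) hδ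
  exact ⟨2 - v, hv.symm, by linarith, by linarith⟩

theorem cantorval :
    E.Nonempty ∧ IsCompact E ∧ closure (interior E) = E ∧
      ∀ p ∈ E, (connectedComponentIn E p).Nontrivial →
        sInf (connectedComponentIn E p) ∈ closure {y ∈ E | connectedComponentIn E y = {y}} ∧
        sSup (connectedComponentIn E p) ∈ closure {y ∈ E | connectedComponentIn E y = {y}} := by
  refine ⟨⟨0, Or.inl zero_mem⟩, E_compact, E_closure, ?_⟩
  intro p hp hnt
  set C := connectedComponentIn E p with hC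
  have hpc : IsPreconnected C := isPreconnected_connectedComponentIn
  have hord : C.OrdConnected := hpc.ordConnected
  have hsubE : C ⊆ E := connectedComponentIn_subset E p
  have hclosed : IsClosed C := by
    apply isClosed_of_closure_subset
    have hpre : IsPreconnected (closure C) := hpc.closure
    exact hpre.subset_connectedComponentIn (x := p) (F := E)
      (subset_closure (mem_connectedComponentIn hp)) (closure_minimal hsubE E_compact.isClosed)
  have hcompact : IsCompact C := E_compact.of_isClosed_subset hclosed hsubE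
  have hne : C.Nonempty := ⟨p, mem_connectedComponentIn hp⟩
  have hinf : sInf C ∈ C := hcompact.sInf_mem hne
  have hsup : sSup C ∈ C := hcompact.sSup_mem hne
  have hlt : sInf C < sSup C := by
    obtain ⟨a, ha, b, hb, hab⟩ := hnt
    have h1 := csInf_le hcompact.bddBelow ha
    have h2 := csInf_le hcompact.bddBelow hb
    have h3 := le_csSup hcompact.bddAbove ha
    have h4 := le_csSup hcompact.bddAbove hb
    rcases lt_or_gt_of_ne hab with h | h <;> linarith
  have hIcc : Icc (sInf C) (sSup C) ⊆ E := (hord.out hinf hsup).trans hsubE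
  have hleft : ∀ y, y < sInf C → ¬ Icc y (sInf C) ⊆ E := by
    intro y hy hsub
    have hpre : IsPreconnected (Icc y (sInf C) ∪ C) :=
      IsPreconnected.union (sInf C) ⟨hy.le, le_refl _⟩ hinf isPreconnected_Icc hpc
    have hcc : Icc y (sInf C) ∪ C ⊆ C := by
      have := hpre.subset_connectedComponentIn (x := p) (F := E)
        (Or.inr (mem_connectedComponentIn hp)) (union_subset hsub hsubE)
      exact this
    have : y ∈ C := hcc (Or.inl ⟨le_refl _, hy.le⟩)
    have := csInf_le hcompact.bddBelow this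
    linarith
  have hright : ∀ y, sSup C < y → ¬ Icc (sSup C) y ⊆ E := by
    intro y hy hsub
    have hpre : IsPreconnected (Icc (sSup C) y ∪ C) :=
      IsPreconnected.union (sSup C) ⟨le_refl _, hy.le⟩ hsup isPreconnected_Icc hpc
    have hcc : Icc (sSup C) y ∪ C ⊆ C := by
      have := hpre.subset_connectedComponentIn (x := p) (F := E)
        (Or.inr (mem_connectedComponentIn hp)) (union_subset hsub hsubE)
      exact this
    have : y ∈ C := hcc (Or.inl ⟨hy.le, le_refl _⟩)
    have := le_csSup hcompact.bddAbove this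
    linarith
  constructor
  · rw [Metric.mem_closure_iff]
    intro δ hδ
    obtain ⟨v, hv, h1, h2⟩ := left_endpoint hlt hIcc hleft hδ
    exact ⟨v, ⟨hv.1, hv.comp⟩, by rw [Real.dist_eq, abs_lt]; constructor <;> linarith⟩
  · rw [Metric.mem_closure_iff]
    intro δ hδ
    obtain ⟨v, hv, h1, h2⟩ := right_endpoint hlt hIcc hright hδ
    exact ⟨v, ⟨hv.1, hv.comp⟩, by rw [Real.dist_eq, abs_lt]; constructor <;> linarith⟩

/-! ### the two left endpoints -/

theorem a_right : Icc (2/3 : ℝ) 1 ⊆ E := fun _ h => Or.inl (Icc_sub h)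

theorem b_right : Icc (1/6 : ℝ) (1/4) ⊆ E := by
  intro y hy
  left
  have : 4*y ∈ T := Icc_sub ⟨by linarith [hy.1], by linarith [hy.2]⟩
  have := mem0 this
  rwa [show 4*y/4 = y by ring] at this

/-- gaps accumulating at 2/3 from the left -/
theorem a_gap (k : ℕ) : 2/3 - (107/1536) * (1/16 : ℝ)^k ∉ E := by
  rintro (h | h)
  · refine scale23 (107/1536) (by norm_num) (by norm_num) ?_ k h
    intro h
    have h1 := mid h (by norm_num) (by norm_num)
    have h2 := (low h1 (by norm_num)).1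
    have h3 := (high h2 (by norm_num)).1
    have h4 := (high h3 (by norm_num)).2
    norm_num at h4
  · refine scale13 (107/1536) (by norm_num) (by norm_num) ?_ k
      (by rwa [show 1/3 - (107/1536) * (1/16 : ℝ)^k = 2/3 - (107/1536) * (1/16 : ℝ)^k - 1/3 by ring])
    intro h
    have h1 := (low h (by norm_num)).1
    have h2 := (mid3 h1 (by norm_num) (by norm_num)).1
    have h3 := (high h2 (by norm_num)).2
    norm_num at h3

/-- gaps accumulating at 1/6 from the left -/
theorem b_gap (k : ℕ) : 1/6 - (5/96) * (1/16 : ℝ)^k ∉ E := by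
  have hp := pow16 k (5/96) (by norm_num)
  rintro (h | h)
  · have h1 := (low h (by linarith [hp.1])).1
    refine scale23 (5/24) (by norm_num) (by norm_num) (gap1 (by norm_num) (by norm_num)) k ?_
    rwa [show 2/3 - (5/24) * (1/16 : ℝ)^k = 4 * (1/6 - (5/96) * (1/16)^k) by ring]
  · have := T_nonneg h
    linarith [hp.1]

/-- but the corresponding points near 2/3 do lie in `E` -/
theorem a_pts (k : ℕ) : 2/3 - (5/96) * (1/16 : ℝ)^k ∈ E := by
  right
  have h : (1/3 - 5/96 : ℝ) ∈ T := by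
    have h1 := mem0 (mem3 (mem5 one_mem))
    rwa [show ((3 + (5 + 1)/4)/4/4 : ℝ) = 1/3 - 5/96 by norm_num] at h1
  have := scale13' (5/96) h k
  rwa [show 1/3 - (5/96) * (1/16 : ℝ)^k = 2/3 - (5/96) * (1/16 : ℝ)^k - 1/3 by ring] at this

theorem no_left {q c : ℝ} (hc : 0 < c) (h : ∀ k : ℕ, q - c * (1/16 : ℝ)^k ∉ E) :
    ∀ y, y < q → ¬ Icc y q ⊆ E := by
  intro y hy hsub
  obtain ⟨n, hn⟩ := exists_pow_lt_of_lt_one (show 0 < (q - y)/c from div_pos (by linarith) hc)
    (show (1/16 : ℝ) < 1 by norm_num)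
  rw [lt_div_iff₀ hc] at hn
  have hp : (0:ℝ) < (1/16)^n := by positivity
  apply h n
  apply hsub
  constructor
  · linarith [mul_comm c ((1/16 : ℝ)^n)]
  · have := mul_pos hc hp; linarith

theorem main :
    ¬ (∀ x : ℕ → ℝ, (∀ n, 0 < x n) → Summable x →
    ∀ E : Set ℝ, E = {s | ∃ A : Set ℕ, s = ∑' n, A.indicator x n} →
    (E.Nonempty ∧ IsCompact E ∧ closure (interior E) = E ∧
      ∀ p ∈ E, (connectedComponentIn E p).Nontrivial →
        sInf (connectedComponentIn E p) ∈ closure {y ∈ E | connectedComponentIn E y = {y}} ∧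
        sSup (connectedComponentIn E p) ∈ closure {y ∈ E | connectedComponentIn E y = {y}}) →
    ∀ a b : ℝ, a ≠ b →
      (∃ c, a < c ∧ Set.Icc a c ⊆ E) → (∀ y, y < a → ¬ Set.Icc y a ⊆ E) →
      (∃ c, b < c ∧ Set.Icc b c ⊆ E) → (∀ y, y < b → ¬ Set.Icc y b ⊆ E) →
      ∃ ε : ℝ, ε > 0 ∧ ∃ t : ℝ,
        E ∩ Set.Icc (a - ε) a = (fun z => z + t) '' (E ∩ Set.Icc (b - ε) b)) := by
  intro H
  obtain ⟨ε, hε, t, ht⟩ := H x x_pos x_summable E E_eq cantorval (2/3) (1/6) (by norm_num)
    ⟨1, by norm_num, a_right⟩ (no_left (by norm_num) a_gap)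
    ⟨1/4, by norm_num, b_right⟩ (no_left (by norm_num) b_gap)
  have haE : (2/3 : ℝ) ∈ E := a_right ⟨le_refl _, by norm_num⟩
  have hbE : (1/6 : ℝ) ∈ E := b_right ⟨le_refl _, by norm_num⟩
  have h1 : 2/3 - 1/6 ≤ t := by
    have : (2/3 : ℝ) ∈ E ∩ Icc (2/3 - ε) (2/3) := ⟨haE, by linarith, le_refl _⟩
    rw [ht] at this
    obtain ⟨w, hw, hwt⟩ := this
    have := hw.2.2
    simp only at hwt
    linarith
  have h2 : 1/6 + t ≤ 2/3 := by
    have : 1/6 + t ∈ (fun z => z + t) '' (E ∩ Icc (1/6 - ε) (1/6)) :=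
      ⟨1/6, ⟨hbE, by linarith, le_refl _⟩, rfl⟩
    rw [← ht] at this
    exact this.2.2
  have ht' : t = 1/2 := by linarith
  obtain ⟨n, hn⟩ := exists_pow_lt_of_lt_one hε (show (1/16 : ℝ) < 1 by norm_num)
  have hp : (0:ℝ) < (1/16)^n := by positivity
  have : 2/3 - (5/96) * (1/16 : ℝ)^n ∈ E ∩ Icc (2/3 - ε) (2/3) :=
    ⟨a_pts n, by linarith, by linarith⟩
  rw [ht] at this
  obtain ⟨w, hw, hwt⟩ := this
  simp only at hwt
  apply b_gap n
  rw [show 1/6 - (5/96) * (1/16 : ℝ)^n = w by rw [ht'] at hwt; linarith]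
  exact hw.1

end Pool.Agent.H51.Cantorval
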