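import Mathlib

set_option autoImplicit false

namespace Pool.Agent.H51.OrdGlue

open Set Filter Topology Ordinal

/-- continuity of a real function on `[0,Ω]`, in an elementary form -/
def Cont (f : Ordinal.{0} → ℝ) (Ω : Ordinal.{0}) : Prop :=
  ∀ γ ≤ Ω, γ ≠ 0 → ∀ ε : ℝ, 0 < ε → ∃ a < γ, ∀ γ', a < γ' → γ' ≤ γ → |f γ' - f γ| < ε

theorem Cont.const (c : ℝ) (Ω : Ordinal.{0}) : Cont (fun _ => c) Ω := by
  intro γ _ hγ ε hε
  exact ⟨0, pos_iff_ne_zero.mpr hγ, fun _ _ _ => by simpa using hε⟩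

theorem Cont.comp_dist {f g : Ordinal.{0} → ℝ} {Ω : Ordinal.{0}} (hf : Cont f Ω)
    (h : ∀ γ γ', |g γ - g γ'| ≤ |f γ - f γ'|) : Cont g Ω := by
  intro γ hγ hγ0 ε hε
  obtain ⟨a, ha, h'⟩ := hf γ hγ hγ0 ε hε
  exact ⟨a, ha, fun γ' h1 h2 => lt_of_le_of_lt (h γ' γ) (h' γ' h1 h2)⟩

/-- gluing countably many blocks `(0,W]` one after the other, converging to `y` -/
theorem glue {X ι : Type} [Countable ι] [Infinite ι] (W : Ordinal.{0}) (hW : 0 < W)
    (φ : ι → Ordinal.{0} → X → ℝ) (hc : ∀ i w, Cont (fun γ => φ i γ w) W) (y : X → ℝ)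
    (hU : ∀ w (ε : ℝ), 0 < ε → {i | ∃ γ ≤ W, ε ≤ |φ i γ w - y w|}.Finite) :
    ∃ ψ : Ordinal.{0} → X → ℝ, (∀ w, Cont (fun γ => ψ γ w) (W * ω)) ∧ ψ (W * ω) = y ∧
      (∀ γ ≤ W * ω, ψ γ = y ∨ ∃ i, ∃ γ' ≤ W, ψ γ = φ i γ') ∧
      ∀ i γ', 0 < γ' → γ' ≤ W → ∃ γ ≤ W * ω, 0 < γ ∧ ψ γ = φ i γ' := by
  classical
  obtain ⟨e⟩ : Nonempty (ℕ ≃ ι) := nonempty_equiv_of_countable
  obtain ⟨q, hq⟩ : ∃ q : Ordinal.{0} → ℕ, q = fun γ => sInf {n : ℕ | γ ≤ W * ((n : Ordinal) + 1)} :=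
    ⟨_, rfl⟩
  obtain ⟨ψ, hψ⟩ : ∃ ψ : Ordinal.{0} → X → ℝ,
      ψ = fun γ => if W * ω ≤ γ then y else φ (e (q γ)) (γ - W * (q γ : Ordinal)) := ⟨_, rfl⟩
  -- basic facts about q
  have hex : ∀ γ, γ < W * ω → {n : ℕ | γ ≤ W * ((n : Ordinal) + 1)}.Nonempty := by
    intro γ hγ
    rw [Ordinal.lt_mul_iff_of_isSuccLimit isSuccLimit_omega0] at hγ
    obtain ⟨b, hb, hγb⟩ := hγ
    obtain ⟨n, rfl⟩ := Ordinal.lt_omega0.mp hb
    refine ⟨n, hγb.le.trans ?_⟩
    gcongr
    exact le_self_add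
  have h1 : ∀ γ, γ < W * ω → γ ≤ W * ((q γ : Ordinal) + 1) := by
    intro γ hγ
    have := Nat.sInf_mem (hex γ hγ)
    rw [hq]; exact this
  have h3 : ∀ γ (n : ℕ), W * n < γ → γ ≤ W * ((n : Ordinal) + 1) → q γ = n := by
    intro γ n ha hb
    rw [hq]
    apply le_antisymm
    · exact Nat.sInf_le hb
    · apply le_csInf ⟨n, hb⟩
      intro m hm
      by_contra hlt
      push Not at hlt
      have : (m : Ordinal.{0}) + 1 ≤ n := by exact_mod_cast hlt
      have h4 : W * ((m : Ordinal) + 1) ≤ W * n := by gcongr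
      exact absurd (hm.trans h4) (not_le.mpr ha)
  have h2 : ∀ γ, 0 < γ → γ < W * ω → W * (q γ : Ordinal) < γ := by
    intro γ h0 hγ
    rcases Nat.eq_zero_or_pos (q γ) with hz | hpos
    · rw [hz]; simpa using h0
    · by_contra hle
      push Not at hle
      obtain ⟨m, hm⟩ := Nat.exists_eq_add_of_lt hpos
      have hm' : q γ = m + 1 := by omega
      have : m ∈ {n : ℕ | γ ≤ W * ((n : Ordinal) + 1)} := by
        change γ ≤ W * ((m : Ordinal) + 1)
        rw [hm'] at hle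
        exact_mod_cast hle
      have := Nat.sInf_le this
      have hq' : q γ = sInf {n : ℕ | γ ≤ W * ((n : Ordinal) + 1)} := by rw [hq]
      omega
  have hmul : ∀ n : ℕ, W * ((n : Ordinal) + 1) = W * n + W := by
    intro n; rw [mul_add, mul_one]
  have hlt : ∀ n : ℕ, W * ((n : Ordinal) + 1) < W * ω := by
    intro n
    have : (n : Ordinal.{0}) + 1 < ω := by exact_mod_cast Ordinal.natCast_lt_omega0 (n+1)
    exact (mul_lt_mul_iff_right₀ hW).mpr this
  have hval : ∀ (n : ℕ) β, 0 < β → β ≤ W → ψ (W * n + β) = φ (e n) β ∧ W * n + β < W * ω ∧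
      q (W * n + β) = n := by
    intro n β h0 hβ
    have ha : W * n < W * n + β := by simpa using h0
    have hb : W * n + β ≤ W * ((n : Ordinal) + 1) := by rw [hmul]; gcongr
    have hl : W * n + β < W * ω := hb.trans_lt (hlt n)
    have hqn := h3 _ n ha hb
    refine ⟨?_, hl, hqn⟩
    rw [hψ]
    simp only
    rw [if_neg (not_le.mpr hl), hqn, Ordinal.add_sub_cancel]
  refine ⟨ψ, ?_, ?_, ?_, ?_⟩
  · intro w γ hγ hγ0 ε hε
    have hγpos : 0 < γ := pos_iff_ne_zero.mpr hγ0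
    rcases lt_or_eq_of_le hγ with hlt' | heq
    · -- inside a block
      obtain ⟨n, hn⟩ : ∃ n : ℕ, n = q γ := ⟨_, rfl⟩
      have ha := h2 γ hγpos hlt'
      have hb := h1 γ hlt'
      rw [← hn] at ha hb
      obtain ⟨β, hβ⟩ : ∃ β, γ = W * n + β := ⟨γ - W * n, (Ordinal.add_sub_cancel_of_le ha.le).symm⟩
      have hβ0 : 0 < β := by
        rw [hβ] at ha; simpa using ha
      have hβW : β ≤ W := by
        rw [hβ, hmul] at hb; simpa using hb
      obtain ⟨a, haβ, h⟩ := hc (e n) w β hβW hβ0.ne' ε hε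
      refine ⟨W * n + a, by rw [hβ]; gcongr, ?_⟩
      intro γ' h1' h2'
      obtain ⟨β', hβ'⟩ : ∃ β', γ' = W * n + β' :=
        ⟨γ' - W * n, (Ordinal.add_sub_cancel_of_le (le_self_add.trans h1'.le)).symm⟩
      have hb1 : a < β' := by
        rw [hβ'] at h1'; simpa using h1'
      have hb2 : β' ≤ β := by
        rw [hβ', hβ] at h2'; simpa using h2'
      have e1 := (hval n β hβ0 hβW).1
      have e2 := (hval n β' (lt_of_le_of_lt zero_le hb1) (hb2.trans hβW)).1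
      beta_reduce
      rw [hβ, hβ', e1, e2]
      exact h β' hb1 hb2
    · -- at the top
      have hfin := hU w ε hε
      obtain ⟨N, hN⟩ : ∃ N : ℕ, ∀ n, N ≤ n → e n ∉ {i | ∃ γ ≤ W, ε ≤ |φ i γ w - y w|} := by
        have hf2 : (e ⁻¹' {i | ∃ γ ≤ W, ε ≤ |φ i γ w - y w|}).Finite :=
          hfin.preimage (e.injective.injOn)
        obtain ⟨N, hN⟩ := hf2.bddAbove
        refine ⟨N + 1, fun n hn hmem => ?_⟩
        have := hN hmem
        omega
      have hNlt : W * (N : Ordinal) < W * ω :=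
        (mul_lt_mul_iff_right₀ hW).mpr (Ordinal.natCast_lt_omega0 N)
      refine ⟨W * N, by rw [heq]; exact hNlt, ?_⟩
      intro γ' h1' h2'
      have htop : ψ γ = y := by rw [hψ]; simp [heq]
      beta_reduce
      rw [htop]
      rcases lt_or_eq_of_le (h2'.trans hγ) with hl | he
      · have hγ'pos : 0 < γ' := lt_of_le_of_lt zero_le h1'
        have ha := h2 γ' hγ'pos hl
        have hb := h1 γ' hl
        have hqN : N ≤ q γ' := by
          by_contra hcon
          push Not at hcon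
          have h5 : (q γ' : Ordinal.{0}) + 1 ≤ N := by exact_mod_cast hcon
          have h6 : W * ((q γ' : Ordinal) + 1) ≤ W * N := by gcongr
          exact absurd (hb.trans h6) (not_le.mpr h1')
        have hψ' : ψ γ' = φ (e (q γ')) (γ' - W * (q γ' : Ordinal)) := by
          rw [hψ]; simp only; rw [if_neg (not_le.mpr hl)]
        rw [hψ']
        have h7 := hN (q γ') hqN
        simp only [mem_setOf_eq, not_exists, not_and, not_le] at h7
        apply h7
        rw [Ordinal.sub_le, ← hmul]; exact hb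
      · have : ψ γ' = y := by rw [hψ]; simp [he]
        rw [this]; simpa using hε
  · rw [hψ]; simp
  · intro γ hγ
    rcases lt_or_eq_of_le hγ with hl | he
    · right
      refine ⟨e (q γ), γ - W * (q γ : Ordinal), ?_, ?_⟩
      · rw [Ordinal.sub_le, ← hmul]; exact h1 γ hl
      · rw [hψ]; simp only; rw [if_neg (not_le.mpr hl)]
    · left; rw [hψ]; simp [he]
  · intro i γ' h0 hle
    obtain ⟨a, b, _⟩ := hval (e.symm i) γ' h0 hle
    refine ⟨_, b.le, ?_, by rw [a, Equiv.apply_symm_apply]⟩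
    exact lt_of_lt_of_le h0 le_add_self

end Pool.Agent.H51.OrdGlue
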