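import Mathlib
import Pool.Agent.H51.OrdGlue

set_option autoImplicit false

namespace Pool.Agent.H51.L1Tree

open Set Filter Topology Metric
open scoped Ordinal
open Pool.Agent.H51.OrdGlue

/-- an increasing sequence of finite-rank L-projections -/
structure LProj {X : Type} [NormedAddCommGroup X] (P : ℕ → X → X) : Prop where
  sub : ∀ M x y, P M (x - y) = P M x - P M y
  norm_add : ∀ M x, ‖x‖ = ‖P M x‖ + ‖x - P M x‖
  comp : ∀ M N x, P M (P N x) = P (min M N) x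
  zero : ∀ x, P 0 x = 0
  tendsto : ∀ x, Tendsto (fun M => ‖x - P M x‖) atTop (𝓝 0)
  tb : ∀ M R, TotallyBounded (P M '' closedBall 0 R)

variable {X : Type} [NormedAddCommGroup X] {P : ℕ → X → X}

/-- 1-Lipschitz -/
def Lip (g : X → ℝ) : Prop := ∀ x y, |g x - g y| ≤ ‖x - y‖

theorem LProj.P_le (hP : LProj P) (M : ℕ) (x : X) : ‖P M x‖ ≤ ‖x‖ := by
  have := hP.norm_add M x; have := norm_nonneg (x - P M x); linarith

theorem LProj.R_le (hP : LProj P) (M : ℕ) (x : X) : ‖x - P M x‖ ≤ ‖x‖ := by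
  have := hP.norm_add M x; have := norm_nonneg (P M x); linarith

theorem LProj.P_zero (hP : LProj P) (M : ℕ) : P M 0 = 0 := by
  have := hP.sub M 0 0; simpa using this

theorem LProj.R_split (hP : LProj P) {M N : ℕ} (h : M ≤ N) (x : X) :
    ‖x - P M x‖ = ‖P N x - P M x‖ + ‖x - P N x‖ := by
  have h1 := hP.norm_add N (x - P M x)
  rw [hP.sub, hP.comp, min_eq_right h] at h1
  rw [h1]; congr 2; abel

theorem LProj.R_anti (hP : LProj P) {M N : ℕ} (h : M ≤ N) (x : X) :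
    ‖x - P N x‖ ≤ ‖x - P M x‖ := by
  have := hP.R_split h x; have := norm_nonneg (P N x - P M x); linarith

theorem LProj.P_split (hP : LProj P) {M N : ℕ} (h : M ≤ N) (x : X) :
    ‖P N x‖ = ‖P M x‖ + ‖P N x - P M x‖ := by
  have h1 := hP.norm_add M (P N x)
  rwa [hP.comp, min_eq_left h] at h1

theorem LProj.R_dist (hP : LProj P) (M : ℕ) (x y : X) :
    |‖x - P M x‖ - ‖y - P M y‖| ≤ ‖(x - y) - P M (x - y)‖ := by
  have := abs_norm_sub_norm_le (x - P M x) (y - P M y)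
  rw [hP.sub]
  calc _ ≤ ‖x - P M x - (y - P M y)‖ := this
    _ = _ := by congr 1; abel

/-- the pseudo-metric seeing only `P N` and the norm of the tail -/
def D (P : ℕ → X → X) (N : ℕ) (w a : X) : ℝ :=
  ‖P N (w - a)‖ + |‖w - P N w‖ - ‖a - P N a‖|

theorem D_ge (N : ℕ) (w a : X) : ‖P N (w - a)‖ ≤ D P N w a := by
  unfold D; have := abs_nonneg (‖w - P N w‖ - ‖a - P N a‖); linarith

theorem D_lip (hP : LProj P) (N : ℕ) (a : X) (w w' : X) : |D P N w a - D P N w' a| ≤ ‖w - w'‖ := by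
  unfold D
  have h1 : |‖P N (w - a)‖ - ‖P N (w' - a)‖| ≤ ‖P N (w - w')‖ := by
    have := abs_norm_sub_norm_le (P N (w - a)) (P N (w' - a))
    rwa [← hP.sub, show w - a - (w' - a) = w - w' by abel] at this
  have h2 := hP.R_dist N w w'
  have h3 : |(|‖w - P N w‖ - ‖a - P N a‖| - |‖w' - P N w'‖ - ‖a - P N a‖|)|
      ≤ |‖w - P N w‖ - ‖w' - P N w'‖| := by
    have := abs_abs_sub_abs_le_abs_sub (‖w - P N w‖ - ‖a - P N a‖) (‖w' - P N w'‖ - ‖a - P N a‖)
    rwa [sub_sub_sub_cancel_right] at this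
  have h4 := hP.norm_add N (w - w')
  have h5 := abs_le.mp h1
  have h6 := abs_le.mp h3
  rw [abs_le]
  constructor <;> linarith [h5.1, h5.2, h6.1, h6.2]

/-- the child function -/
noncomputable def child (P : ℕ → X → X) (A : ℝ) (g : X → ℝ) (M : ℕ) (a : X) (w : X) : ℝ :=
  max (g (P M w) - min ‖w - P M w‖ A) (g (P M a) + min ‖a - P M a‖ A - D P (M+1) w a)

theorem child_lip (hP : LProj P) {A : ℝ} {g : X → ℝ} (hg : Lip g) (M : ℕ) (a : X) :
    Lip (child P A g M a) := by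
  intro w w'
  unfold child
  refine (abs_max_sub_max_le_max _ _ _ _).trans (max_le ?_ ?_)
  · have h1 := hg (P M w) (P M w')
    rw [← hP.sub] at h1
    have h2 : |min ‖w - P M w‖ A - min ‖w' - P M w'‖ A| ≤ |‖w - P M w‖ - ‖w' - P M w'‖| := by
      have := abs_min_sub_min_le_max ‖w - P M w‖ A ‖w' - P M w'‖ A
      simpa using this
    have h3 := hP.R_dist M w w'
    have h4 := hP.norm_add M (w - w')
    have h5 : |g (P M w) - min ‖w - P M w‖ A - (g (P M w') - min ‖w' - P M w'‖ A)|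
        ≤ |g (P M w) - g (P M w')| + |min ‖w - P M w‖ A - min ‖w' - P M w'‖ A| := by
      rw [show g (P M w) - min ‖w - P M w‖ A - (g (P M w') - min ‖w' - P M w'‖ A)
        = (g (P M w) - g (P M w')) - (min ‖w - P M w‖ A - min ‖w' - P M w'‖ A) by ring]
      exact abs_sub _ _
    linarith
  · have := D_lip hP (M+1) a w w'
    rw [abs_sub_comm] at this
    rwa [show g (P M a) + min ‖a - P M a‖ A - D P (M+1) w a -
      (g (P M a) + min ‖a - P M a‖ A - D P (M+1) w' a) = D P (M+1) w' a - D P (M+1) w a by ring]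

theorem child_eq (hP : LProj P) {A : ℝ} (hA : 0 ≤ A) {g : X → ℝ} (hg : Lip g) (M : ℕ) (a : X) {w : X}
    (hw : P M w = w) : child P A g M a w = g w := by
  unfold child
  have hmin0 : min ‖w - w‖ A = 0 := by rw [sub_self, norm_zero]; exact min_eq_left hA
  rw [hw, hmin0, sub_zero]
  apply max_eq_left
  have hw' : P (M+1) w = w := by
    conv_lhs => rw [← hw]
    rw [hP.comp, min_eq_right (Nat.le_succ M), hw]
  unfold D
  rw [hw', sub_self, norm_zero, zero_sub, abs_neg, abs_of_nonneg (norm_nonneg _)]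
  have h1 := hP.P_split (Nat.le_succ M) (w - a)
  have h2 : P (M+1) (w - a) - P M (w - a) = -(P (M+1) a - P M a) := by
    rw [hP.sub, hP.sub, hw, hw']; abel
  simp only [Nat.succ_eq_add_one] at h1
  rw [h2, norm_neg] at h1
  have h3 := hP.R_split (Nat.le_succ M) a
  simp only [Nat.succ_eq_add_one] at h3
  have h4 := hg (P M a) w
  have h5 : ‖P M (w - a)‖ = ‖P M a - w‖ := by
    rw [hP.sub, hw, norm_sub_rev]
  have h6 := (abs_le.mp h4).2
  have h7 := min_le_left ‖a - P M a‖ A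
  linarith

theorem child_near (hP : LProj P) {A : ℝ} (hA : 0 ≤ A) {g : X → ℝ} (hg : Lip g) (M : ℕ) (a : X) (w : X) :
    |child P A g M a w - g (P M w)| ≤ A := by
  unfold child
  have h1 := min_le_right ‖w - P M w‖ A
  have h1' : 0 ≤ min ‖w - P M w‖ A := le_min (norm_nonneg _) hA
  have h2 := min_le_right ‖a - P M a‖ A
  have h3 := D_ge (P := P) (M+1) w a
  have h4 := hP.P_split (Nat.le_succ M) (w - a)
  simp only [Nat.succ_eq_add_one] at h4
  have h5 := norm_nonneg (P (M+1) (w - a) - P M (w - a))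
  have h6 := (abs_le.mp (hg (P M a) (P M w))).2
  rw [← hP.sub, show a - w = -(w - a) by abel] at h6
  have h7 : ‖P M (-(w - a))‖ = ‖P M (w - a)‖ := by
    have := hP.sub M 0 (w - a)
    rw [hP.P_zero, zero_sub, zero_sub] at this
    rw [this, norm_neg]
  rw [h7] at h6
  rw [abs_le]
  constructor
  · have := le_max_left (g (P M w) - min ‖w - P M w‖ A)
      (g (P M a) + min ‖a - P M a‖ A - D P (M+1) w a)
    linarith
  · have : max (g (P M w) - min ‖w - P M w‖ A)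
      (g (P M a) + min ‖a - P M a‖ A - D P (M+1) w a) ≤ g (P M w) + A := by
      apply max_le <;> linarith
    linarith

/-- the gain in one step -/
theorem child_gain (hP : LProj P) {A θ c E e : ℝ} {g : X → ℝ} (hg : Lip g) (M : ℕ) (a x y : X)
    (hθ0 : 0 ≤ θ) (hθ1 : θ ≤ 1) (hA : 2 * ‖x - y‖ ≤ A) (hc0 : 0 ≤ c) (hc1 : c ≤ 1) (hE : 0 ≤ E)
    (h1 : θ * ‖x - y‖ < ‖x - P M x‖ + ‖y - P M y‖)
    (h2 : ‖x - P (M+1) x‖ + ‖y - P (M+1) y‖ ≤ θ * ‖x - y‖)
    (h3 : c * ‖P M x - P M y‖ - E ≤ g (P M x) - g (P M y))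
    (ha : D P (M+1) x a ≤ e) :
    min (c + (1-c)*θ) (1-θ) * ‖x - y‖ - (E + 2*e) ≤ child P A g M a x - child P A g M a y := by
  have hD0 : 0 ≤ D P (M+1) x a := by unfold D; positivity
  have hx : g (P M x) + min ‖x - P M x‖ A - 2*e ≤ g (P M a) + min ‖a - P M a‖ A - D P (M+1) x a := by
    have e1 := (abs_le.mp (hg (P M x) (P M a))).2
    rw [← hP.sub] at e1
    have e2 : min ‖x - P M x‖ A ≤ min ‖a - P M a‖ A + (‖P (M+1) (x-a) - P M (x-a)‖ +
        |‖x - P (M+1) x‖ - ‖a - P (M+1) a‖|) := by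
      have f1 := hP.R_split (Nat.le_succ M) x
      have f2 := hP.R_split (Nat.le_succ M) a
      simp only [Nat.succ_eq_add_one] at f1 f2
      have f3 : ‖P (M+1) x - P M x‖ ≤ ‖P (M+1) a - P M a‖ + ‖P (M+1) (x-a) - P M (x-a)‖ := by
        rw [hP.sub, hP.sub]
        calc ‖P (M+1) x - P M x‖ = ‖(P (M+1) a - P M a) + (P (M+1) x - P (M+1) a - (P M x - P M a))‖ := by
              congr 1; abel
          _ ≤ _ := norm_add_le _ _
      have f4 := le_abs_self (‖x - P (M+1) x‖ - ‖a - P (M+1) a‖)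
      have f5 : ‖x - P M x‖ ≤ ‖a - P M a‖ + (‖P (M+1) (x-a) - P M (x-a)‖ +
        |‖x - P (M+1) x‖ - ‖a - P (M+1) a‖|) := by linarith
      have f6 : 0 ≤ ‖P (M+1) (x-a) - P M (x-a)‖ + |‖x - P (M+1) x‖ - ‖a - P (M+1) a‖| := by positivity
      rcases le_total ‖a - P M a‖ A with h | h
      · rw [min_eq_left h]; exact (min_le_left _ _).trans f5
      · rw [min_eq_right h]; exact (min_le_right _ _).trans (by linarith)
    have e3 := hP.P_split (Nat.le_succ M) (x - a)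
    simp only [Nat.succ_eq_add_one] at e3
    have e4 : D P (M+1) x a = ‖P M (x - a)‖ + ‖P (M+1) (x-a) - P M (x-a)‖ +
        |‖x - P (M+1) x‖ - ‖a - P (M+1) a‖| := by unfold D; rw [e3]
    linarith
  have hmin1 := min_le_left (c + (1-c)*θ) (1-θ)
  have hmin2 := min_le_right (c + (1-c)*θ) (1-θ)
  have hd := norm_nonneg (x - y)
  have hchx : g (P M a) + min ‖a - P M a‖ A - D P (M+1) x a ≤ child P A g M a x := le_max_right _ _
  have hchy : child P A g M a y = g (P M y) - min ‖y - P M y‖ A ∨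
      child P A g M a y = g (P M a) + min ‖a - P M a‖ A - D P (M+1) y a := by
    unfold child; exact max_choice _ _
  have he : 0 ≤ e := hD0.trans ha
  rcases hchy with hy | hy
  · rw [hy]
    have key : min (c + (1-c)*θ) (1-θ) * ‖x - y‖ - E ≤
        g (P M x) - g (P M y) + min ‖x - P M x‖ A + min ‖y - P M y‖ A := by
      have m1 : min (c + (1-c)*θ) (1-θ) * ‖x - y‖ ≤ (c + (1-c)*θ) * ‖x - y‖ :=
        mul_le_mul_of_nonneg_right hmin1 hd
      have n1 := norm_nonneg (x - P M x)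
      have n2 := norm_nonneg (y - P M y)
      have hxy : ‖x - y‖ ≤ ‖P M x - P M y‖ + ‖x - P M x‖ + ‖y - P M y‖ := by
        calc ‖x - y‖ = ‖(P M x - P M y) + (x - P M x) - (y - P M y)‖ := by congr 1; abel
          _ ≤ ‖(P M x - P M y) + (x - P M x)‖ + ‖y - P M y‖ := norm_sub_le _ _
          _ ≤ _ := by linarith [norm_add_le (P M x - P M y) (x - P M x)]
      have hsm : c + (1-c)*θ ≤ 1 := by nlinarith
      have hsm' : (c + (1-c)*θ) * ‖x - y‖ ≤ ‖x - y‖ := mul_le_of_le_one_left hd hsm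
      have hPd : ‖P M x - P M y‖ ≤ ‖x - y‖ := by rw [← hP.sub]; exact hP.P_le _ _
      have hgd := (abs_le.mp (hg (P M x) (P M y))).1
      have hA0 : 0 ≤ A := by linarith
      have n3 : 0 ≤ min ‖x - P M x‖ A := le_min n1 hA0
      have n4 : 0 ≤ min ‖y - P M y‖ A := le_min n2 hA0
      rcases le_total ‖x - P M x‖ A with hx1 | hx1
      · rcases le_total ‖y - P M y‖ A with hy1 | hy1
        · rw [min_eq_left hx1, min_eq_left hy1]
          have t1 : c * (‖x - y‖ - (‖x - P M x‖ + ‖y - P M y‖)) ≤ c * ‖P M x - P M y‖ :=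
            mul_le_mul_of_nonneg_left (by linarith) hc0
          have t2 : 0 ≤ (1 - c) * (‖x - P M x‖ + ‖y - P M y‖ - θ * ‖x - y‖) :=
            mul_nonneg (by linarith) (by linarith)
          nlinarith
        · rw [min_eq_right hy1]
          linarith
      · rw [min_eq_right hx1]
        linarith
    linarith
  · rw [hy]
    have m2 : min (c + (1-c)*θ) (1-θ) * ‖x - y‖ ≤ (1-θ) * ‖x - y‖ :=
      mul_le_mul_of_nonneg_right hmin2 hd
    have k1 := D_ge (P := P) (M+1) y a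
    have k2 : ‖P (M+1) (x - y)‖ ≤ ‖P (M+1) (x - a)‖ + ‖P (M+1) (y - a)‖ := by
      rw [show x - y = (x - a) - (y - a) by abel, hP.sub]
      exact norm_sub_le _ _
    have k3 := D_ge (P := P) (M+1) x a
    have k4 := hP.norm_add (M+1) (x - y)
    have k5 : ‖(x - y) - P (M+1) (x - y)‖ ≤ ‖x - P (M+1) x‖ + ‖y - P (M+1) y‖ := by
      rw [hP.sub, show x - y - (P (M+1) x - P (M+1) y) = (x - P (M+1) x) - (y - P (M+1) y) by abel]
      exact norm_sub_le _ _
    linarith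

/-- finite nets for `D P N` in balls -/
theorem LProj.net (hP : LProj P) (N : ℕ) (R : ℝ) {e : ℝ} (he : 0 < e) :
    ∃ S : Finset X, S.Nonempty ∧ ∀ x, ‖x‖ ≤ R → ∃ a ∈ S, D P N x a ≤ e := by
  classical
  obtain ⟨t1, -, ht1, hc1⟩ := finite_approx_of_totallyBounded (hP.tb N R) (e/4) (by linarith)
  obtain ⟨t2, -, ht2, hc2⟩ := finite_approx_of_totallyBounded (totallyBounded_Icc (0:ℝ) R) (e/4)
    (by linarith)
  let sel : X × ℝ → X := fun p =>
    if h : ∃ x : X, dist (P N x) p.1 < e/4 ∧ dist ‖x - P N x‖ p.2 < e/4 then h.choose else 0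
  refine ⟨insert 0 ((ht1.toFinset ×ˢ ht2.toFinset).image sel), by simp, ?_⟩
  intro x hx
  have h1 : P N x ∈ P N '' closedBall 0 R := ⟨x, by simpa using hx, rfl⟩
  have h2 : ‖x - P N x‖ ∈ Icc (0:ℝ) R := ⟨norm_nonneg _, (hP.R_le N x).trans hx⟩
  obtain ⟨y, hy, hy'⟩ := mem_iUnion₂.mp (hc1 h1)
  obtain ⟨r, hr, hr'⟩ := mem_iUnion₂.mp (hc2 h2)
  have hex : ∃ x : X, dist (P N x) y < e/4 ∧ dist ‖x - P N x‖ r < e/4 := ⟨x, hy', hr'⟩
  have hsel : sel (y, r) = hex.choose := by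
    simp only [sel]; rw [dif_pos hex]
  obtain ⟨ha1, ha2⟩ := hex.choose_spec
  refine ⟨sel (y, r), ?_, ?_⟩
  · rw [Finset.mem_insert]; right
    rw [Finset.mem_image]
    exact ⟨(y, r), by simp [hy, hr], rfl⟩
  · rw [hsel]
    unfold D
    rw [hP.sub, ← dist_eq_norm]
    have k1 : dist (P N x) (P N hex.choose) ≤ e/4 + e/4 := by
      have := dist_triangle_right (P N x) (P N hex.choose) y
      have : dist (P N x) y < e/4 := hy'
      linarith
    have k2 : |‖x - P N x‖ - ‖hex.choose - P N hex.choose‖| ≤ e/4 + e/4 := by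
      rw [← Real.dist_eq]
      have := dist_triangle_right ‖x - P N x‖ ‖hex.choose - P N hex.choose‖ r
      have : dist ‖x - P N x‖ r < e/4 := hr'
      linarith
    linarith

/-- one step of the chain -/
def Step (P : ℕ → X → X) (θ : ℝ) (M : ℕ) (p q : X × X) : Prop :=
  p = (P M q.1, P M q.2) ∧ θ * ‖q.1 - q.2‖ < ‖q.1 - P M q.1‖ + ‖q.2 - P M q.2‖ ∧
  ‖q.1 - P (M+1) q.1‖ + ‖q.2 - P (M+1) q.2‖ ≤ θ * ‖q.1 - q.2‖

/-- chains of steps with nondecreasing indices, all at least `M₀` -/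
def Chain (P : ℕ → X → X) (θ : ℝ) : ℕ → ℕ → X × X → X × X → Prop
  | 0, _, p, q => p = q
  | j+1, M₀, p, q => ∃ M, M₀ ≤ M ∧ ∃ p₁, Step P θ M p p₁ ∧ Chain P θ j M p₁ q

theorem chain_norm (hP : LProj P) {θ : ℝ} (j : ℕ) : ∀ (M₀ : ℕ) (p q : X × X), Chain P θ j M₀ p q →
    ‖p.1‖ ≤ ‖q.1‖ ∧ ‖p.1 - p.2‖ ≤ ‖q.1 - q.2‖ := by
  induction j with
  | zero =>
    intro M₀ p q h
    have h' : p = q := h
    subst h'
    exact ⟨le_refl _, le_refl _⟩
  | succ j ih =>
    intro M₀ p q h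
    obtain ⟨M, _, p₁, hs, hc⟩ := h
    obtain ⟨h1, h2⟩ := ih M p₁ q hc
    obtain ⟨rfl, _, _⟩ := hs
    refine ⟨(hP.P_le M p₁.1).trans h1, ?_⟩
    simp only
    rw [← hP.sub]
    exact (hP.P_le M _).trans h2

/-- the gain map -/
noncomputable def F (θ c : ℝ) : ℝ := min (c + (1-c)*θ) (1-θ)

theorem F_nonneg {θ c : ℝ} (h0 : 0 ≤ θ) (h1 : θ ≤ 1) (hc0 : 0 ≤ c) (hc1 : c ≤ 1) : 0 ≤ F θ c := by
  apply le_min
  · nlinarith
  · linarith

theorem F_le_one {θ c : ℝ} (h0 : 0 ≤ θ) : F θ c ≤ 1 :=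
  (min_le_right _ _).trans (by linarith)

theorem tree (hP : LProj P) {A θ R e : ℝ} (hθ0 : 0 ≤ θ) (hθ1 : θ ≤ 1) (hA : 0 ≤ A) (he : 0 < e)
    (k : ℕ) : ∀ (g : X → ℝ) (M₀ : ℕ) (B : ℝ), Lip g → (∀ w, |g w| ≤ B) →
    ∃ φ : Ordinal.{0} → X → ℝ, (∀ w, Cont (fun γ => φ γ w) (ω^k)) ∧ φ (ω^k) = g ∧
      (∀ γ ≤ (ω : Ordinal.{0})^k, Lip (φ γ) ∧ (∀ w, |φ γ w| ≤ B + k*A) ∧
        (∀ w, P M₀ w = w → φ γ w = g w)) ∧
      (∀ j ≤ k, ∀ (p q : X × X) (c E : ℝ), Chain P θ j M₀ p q → ‖q.1‖ ≤ R →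
        2 * ‖q.1 - q.2‖ ≤ A → 0 ≤ c → c ≤ 1 → 0 ≤ E → c * ‖p.1 - p.2‖ - E ≤ g p.1 - g p.2 →
        ∃ γ, 0 < γ ∧ γ ≤ (ω : Ordinal.{0})^k ∧
          (F θ)^[j] c * ‖q.1 - q.2‖ - (E + 2*j*e) ≤ φ γ q.1 - φ γ q.2) := by
  classical
  induction k with
  | zero =>
    intro g M₀ B hg hB
    refine ⟨fun _ => g, fun w => Cont.const _ _, rfl, ?_, ?_⟩
    · intro γ _
      refine ⟨hg, ?_, fun _ _ => rfl⟩
      intro w; simpa using hB w
    · intro j hj p q c E hch _ _ _ _ _ hgp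
      obtain rfl : j = 0 := by omega
      have h' : p = q := hch
      subst h'
      refine ⟨1, one_pos, by simp, ?_⟩
      simpa using hgp
  | succ k ih =>
    intro g M₀ B hg hB
    choose S hSne hS using fun N => hP.net N R he
    let ι := Σ j : ℕ, {a : X // a ∈ S (M₀ + j + 1)}
    have hcount : Countable ι := inferInstance
    have hinf : Infinite ι := by
      apply Infinite.of_injective (fun j : ℕ => (⟨j, (hSne (M₀+j+1)).choose,
        (hSne (M₀+j+1)).choose_spec⟩ : ι))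
      intro a b hab
      exact congrArg Sigma.fst hab
    have hch : ∀ i : ι, ∃ φ : Ordinal.{0} → X → ℝ, (∀ w, Cont (fun γ => φ γ w) (ω^k)) ∧
      φ (ω^k) = child P A g (M₀ + i.1) i.2.1 ∧
      (∀ γ ≤ (ω : Ordinal.{0})^k, Lip (φ γ) ∧ (∀ w, |φ γ w| ≤ (B + A) + k*A) ∧
        (∀ w, P (M₀ + i.1) w = w → φ γ w = child P A g (M₀ + i.1) i.2.1 w)) ∧
      (∀ j ≤ k, ∀ (p q : X × X) (c E : ℝ), Chain P θ j (M₀ + i.1) p q → ‖q.1‖ ≤ R →
        2 * ‖q.1 - q.2‖ ≤ A → 0 ≤ c → c ≤ 1 → 0 ≤ E →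
        c * ‖p.1 - p.2‖ - E ≤ child P A g (M₀ + i.1) i.2.1 p.1 - child P A g (M₀ + i.1) i.2.1 p.2 →
        ∃ γ, 0 < γ ∧ γ ≤ (ω : Ordinal.{0})^k ∧
          (F θ)^[j] c * ‖q.1 - q.2‖ - (E + 2*j*e) ≤ φ γ q.1 - φ γ q.2) := by
      intro i
      apply ih
      · exact child_lip hP hg _ _
      · intro w
        have h1 := child_near hP hA hg (M₀ + i.1) i.2.1 w
        have h2 := hB (P (M₀ + i.1) w)
        rw [abs_le] at *
        constructor <;> linarith [h1.1, h1.2, h2.1, h2.2]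
    choose φ hφc hφtop hφprop hφcov using hch
    have hWpos : (0 : Ordinal.{0}) < ω^k := by
      apply pow_pos; exact Ordinal.omega0_pos
    obtain ⟨ψ, hψc, hψtop, hψval, hψex⟩ := glue (ω^k) hWpos φ hφc g (by
      intro w ε hε
      have ht := (hP.tendsto w).eventually (gt_mem_nhds (show (0:ℝ) < ε/2 by linarith))
      obtain ⟨J, hJ⟩ := ht.exists_forall_of_atTop
      have hfin : (⋃ j ∈ Set.Iio J, Set.range (fun a : {a : X // a ∈ S (M₀ + j + 1)} =>
          (⟨j, a⟩ : ι))).Finite :=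
        Set.Finite.biUnion (Set.finite_Iio J) (fun j _ => Set.finite_range _)
      apply hfin.subset
      rintro ⟨j, a⟩ ⟨γ, hγ, hle⟩
      rw [mem_iUnion₂]
      refine ⟨j, ?_, a, rfl⟩
      by_contra hnot
      simp only [Set.mem_Iio, not_lt] at hnot
      have h1 := hJ (M₀ + j) (by omega)
      obtain ⟨l1, l2, l3⟩ := hφprop ⟨j, a⟩ γ hγ
      have hPP : P (M₀ + j) (P (M₀ + j) w) = P (M₀ + j) w := by rw [hP.comp, min_self]
      have h2 := l3 (P (M₀ + j) w) hPP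
      simp only at h2
      rw [child_eq hP hA hg (M₀ + j) a.1 hPP] at h2
      have h3 := l1 w (P (M₀ + j) w)
      have h4 := hg w (P (M₀ + j) w)
      rw [h2] at h3
      have h5 : |φ ⟨j, a⟩ γ w - g w| ≤ ‖w - P (M₀ + j) w‖ + ‖w - P (M₀ + j) w‖ := by
        rw [abs_le] at *
        constructor <;> linarith [h3.1, h3.2, h4.1, h4.2]
      linarith)
    have hpow : (ω : Ordinal.{0})^(k+1) = ω^k * ω := pow_succ _ _
    rw [hpow]
    refine ⟨ψ, hψc, hψtop, ?_, ?_⟩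
    · intro γ hγ
      rcases hψval γ hγ with h | ⟨i, γ', hγ', h⟩
      · rw [h]
        refine ⟨hg, ?_, fun _ _ => rfl⟩
        intro w
        have := hB w
        have : (0:ℝ) ≤ ((k+1 : ℕ) : ℝ) * A := by positivity
        linarith
      · rw [h]
        obtain ⟨l1, l2, l3⟩ := hφprop i γ' hγ'
        refine ⟨l1, ?_, ?_⟩
        · intro w
          have := l2 w
          push_cast
          linarith
        · intro w hw
          have hw' : P (M₀ + i.1) w = w := by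
            conv_lhs => rw [← hw]
            rw [hP.comp, min_eq_right (Nat.le_add_right _ _), hw]
          rw [l3 w hw']
          exact child_eq hP hA hg _ _ hw'
    · intro j hj p q c E hchain hR hq hc0 hc1 hE hgp
      rcases Nat.eq_zero_or_pos j with rfl | hjpos
      · have h' : p = q := hchain
        subst h'
        refine ⟨ω^k * ω, by rw [← hpow]; exact pow_pos Ordinal.omega0_pos _, le_refl _, ?_⟩
        rw [hψtop]
        simpa using hgp
      · obtain ⟨j', rfl⟩ : ∃ j', j = j' + 1 := ⟨j - 1, by omega⟩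
        obtain ⟨M, hM, p₁, hstep, hchain'⟩ := hchain
        obtain ⟨hn1, hn2⟩ := chain_norm hP j' M p₁ q hchain'
        obtain ⟨m, rfl⟩ := Nat.exists_eq_add_of_le hM
        obtain ⟨a, haS, haD⟩ := hS (M₀ + m + 1) p₁.1 (hn1.trans hR)
        obtain ⟨hp, hs1, hs2⟩ := hstep
        have hgain := child_gain hP (A := A) (θ := θ) (c := c) (E := E) (e := e) hg (M₀ + m) a
          p₁.1 p₁.2 hθ0 hθ1 (by linarith) hc0 hc1 hE hs1 hs2 (by rw [hp] at hgp; exact hgp) haD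
        obtain ⟨γ, hγ0, hγ1, hγ⟩ := hφcov ⟨m, a, haS⟩ j' (by omega) p₁ q (F θ c) (E + 2*e)
          hchain' hR hq (F_nonneg hθ0 hθ1 hc0 hc1) (F_le_one hθ0) (by linarith) hgain
        obtain ⟨γ', hγ'1, hγ'0, hγ'⟩ := hψex ⟨m, a, haS⟩ γ hγ0 hγ1
        refine ⟨γ', hγ'0, hγ'1, ?_⟩
        rw [hγ', Function.iterate_succ_apply]
        push_cast
        linarith

end Pool.Agent.H51.L1Tree
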