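import Mathlib
import Pool.Agent.H51.L1Tree

set_option autoImplicit false

namespace Pool.Agent.H51.L1Embed

open Set Filter Topology Metric
open scoped Ordinal
open Pool.Agent.H51.OrdGlue Pool.Agent.H51.L1Tree

variable {X : Type} [NormedAddCommGroup X] {P : ℕ → X → X}

/-! ### existence of chains -/

theorem chain_trunc (hP : LProj P) {θ : ℝ} (j : ℕ) : ∀ (M₀ M : ℕ) (p q : X × X),
    Chain P θ j M₀ p q → (P M q.1 = q.1 ∧ P M q.2 = q.2) → (P M p.1 = p.1 ∧ P M p.2 = p.2) := by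
  induction j with
  | zero =>
    intro M₀ M p q h hq
    have h' : p = q := h
    rw [h']; exact hq
  | succ j ih =>
    intro M₀ M p q h hq
    obtain ⟨M', _, p₁, ⟨rfl, _, _⟩, hc⟩ := h
    obtain ⟨h1, h2⟩ := ih M' M p₁ q hc hq
    constructor
    · simp only
      rw [hP.comp, min_comm, ← hP.comp, h1]
    · simp only
      rw [hP.comp, min_comm, ← hP.comp, h2]

theorem chain_append (hP : LProj P) {θ : ℝ} (hθ : 0 ≤ θ) (j : ℕ) : ∀ (M₀ M : ℕ) (p q q' : X × X),
    Chain P θ j M₀ p q → (P M q.1 = q.1 ∧ P M q.2 = q.2) → M₀ ≤ M → Step P θ M q q' →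
    Chain P θ (j+1) M₀ p q' := by
  induction j with
  | zero =>
    intro M₀ M p q q' h _ hM hs
    have h' : p = q := h
    subst h'
    exact ⟨M, hM, q', hs, rfl⟩
  | succ j ih =>
    intro M₀ M p q q' h hq _ hs
    obtain ⟨M', hM', p₁, hs', hc⟩ := h
    refine ⟨M', hM', p₁, hs', ih M' M p₁ q q' hc hq ?_ hs⟩
    by_contra hlt
    push Not at hlt
    obtain ⟨h1, h2⟩ := chain_trunc hP j M' M p₁ q hc hq
    have h1' : P M' p₁.1 = p₁.1 := by
      conv_lhs => rw [← h1]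
      rw [hP.comp, min_eq_right hlt.le, h1]
    have h2' : P M' p₁.2 = p₁.2 := by
      conv_lhs => rw [← h2]
      rw [hP.comp, min_eq_right hlt.le, h2]
    have := hs'.2.1
    rw [h1', h2', sub_self, sub_self, norm_zero, add_zero] at this
    have := mul_nonneg hθ (norm_nonneg (p₁.1 - p₁.2))
    linarith

theorem exists_step (hP : LProj P) {θ : ℝ} (hθ0 : 0 < θ) (hθ1 : θ < 1) (q : X × X)
    (hq : q.1 ≠ q.2) : ∃ M, Step P θ M (P M q.1, P M q.2) q := by
  classical
  have hd : 0 < ‖q.1 - q.2‖ := norm_pos_iff.mpr (sub_ne_zero.mpr hq)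
  have ht : Tendsto (fun M => ‖q.1 - P M q.1‖ + ‖q.2 - P M q.2‖) atTop (𝓝 (0 + 0)) :=
    (hP.tendsto q.1).add (hP.tendsto q.2)
  rw [add_zero] at ht
  have hev := ht.eventually (ge_mem_nhds (show 0 < θ * ‖q.1 - q.2‖ from mul_pos hθ0 hd))
  have hex : ∃ N, ‖q.1 - P N q.1‖ + ‖q.2 - P N q.2‖ ≤ θ * ‖q.1 - q.2‖ := hev.exists
  have hmin := Nat.find_spec hex
  have hmin' := fun m => Nat.find_min hex (m := m)
  obtain ⟨N, hN⟩ : ∃ N, N = Nat.find hex := ⟨_, rfl⟩
  rw [← hN] at hmin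
  rcases Nat.eq_zero_or_pos N with h0 | hpos
  · exfalso
    rw [h0, hP.zero, hP.zero, sub_zero, sub_zero] at hmin
    have := norm_sub_le q.1 q.2
    nlinarith
  · obtain ⟨M, rfl⟩ : ∃ M, N = M + 1 := ⟨N - 1, by omega⟩
    refine ⟨M, rfl, ?_, hmin⟩
    have := hmin' M (by omega)
    push Not at this
    exact this

theorem exists_chain (hP : LProj P) {θ : ℝ} (hθ0 : 0 < θ) (hθ1 : θ < 1) (k : ℕ) :
    ∀ q : X × X, ∃ j ≤ k, ∃ p, Chain P θ j 0 p q ∧ (j = k ∨ p.1 = p.2) := by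
  induction k with
  | zero => intro q; exact ⟨0, le_refl _, q, rfl, Or.inl rfl⟩
  | succ k ih =>
    intro q
    by_cases hq : q.1 = q.2
    · exact ⟨0, Nat.zero_le _, q, rfl, Or.inr hq⟩
    · obtain ⟨M, hM⟩ := exists_step hP hθ0 hθ1 q hq
      obtain ⟨j, hj, p, hc, hp⟩ := ih (P M q.1, P M q.2)
      refine ⟨j+1, by omega, p, ?_, ?_⟩
      · refine chain_append hP hθ0.le j 0 M p _ q hc ?_ (Nat.zero_le _) hM
        simp only
        rw [hP.comp, hP.comp, min_self]
        exact ⟨rfl, rfl⟩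
      · rcases hp with h | h
        · left; omega
        · right; exact h

/-! ### iterating the gain -/

theorem F_iter_bounds {θ : ℝ} (h0 : 0 ≤ θ) (h1 : θ ≤ 1) (k : ℕ) :
    0 ≤ (F θ)^[k] 0 ∧ (F θ)^[k] 0 ≤ 1 := by
  induction k with
  | zero => simp
  | succ k ih =>
    rw [Function.iterate_succ_apply']
    exact ⟨F_nonneg h0 h1 ih.1 ih.2, F_le_one h0⟩

theorem F_iter_lower {θ : ℝ} (h0 : 0 ≤ θ) (h1 : θ ≤ 1) (k : ℕ) :
    min (1-θ) (k * θ^2) ≤ (F θ)^[k] 0 := by
  induction k with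
  | zero => simp
  | succ k ih =>
    rw [Function.iterate_succ_apply']
    obtain ⟨b0, b1⟩ := F_iter_bounds h0 h1 k
    generalize (F θ)^[k] 0 = c at *
    unfold F
    apply le_min
    · rcases le_total (1-θ) c with h | h
      · -- c ≥ 1 - θ
        have := min_le_left (1-θ) (((k+1 : ℕ) : ℝ) * θ^2)
        nlinarith [mul_nonneg (show 0 ≤ 1 - c by linarith) h0]
      · -- c ≤ 1 - θ, then gain at least θ^2
        have h2 : c + θ^2 ≤ c + (1-c)*θ := by nlinarith
        rcases le_total (1-θ) ((k:ℝ) * θ^2) with h3 | h3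
        · rw [min_eq_left h3] at ih
          have := min_le_left (1-θ) (((k+1 : ℕ) : ℝ) * θ^2)
          nlinarith
        · rw [min_eq_right h3] at ih
          have := min_le_right (1-θ) (((k+1 : ℕ) : ℝ) * θ^2)
          push_cast at this ⊢
          linarith
    · exact min_le_left _ _

/-! ### cutting off near the origin -/

/-- truncation of `g` between `± (‖w‖ - r)⁺` -/
noncomputable def cut (r : ℝ) (g : X → ℝ) (w : X) : ℝ :=
  max (min (g w) (max (‖w‖ - r) 0)) (-(max (‖w‖ - r) 0))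

theorem cut_lip {r : ℝ} {g : X → ℝ} (hg : Lip g) : Lip (cut r g) := by
  intro x y
  have h0 : |max (‖x‖ - r) 0 - max (‖y‖ - r) 0| ≤ ‖x - y‖ := by
    have h1 := abs_max_sub_max_le_max (‖x‖ - r) 0 (‖y‖ - r) 0
    rw [sub_self, abs_zero, sub_sub_sub_cancel_right] at h1
    have h2 := abs_norm_sub_norm_le x y
    rw [max_eq_left (abs_nonneg (‖x‖ - ‖y‖))] at h1
    exact h1.trans h2
  unfold cut
  refine (abs_max_sub_max_le_max _ _ _ _).trans (max_le ?_ ?_)
  · exact (abs_min_sub_min_le_max _ _ _ _).trans (max_le (hg x y) h0)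
  · rw [show -max (‖x‖ - r) 0 - -max (‖y‖ - r) 0 = -(max (‖x‖ - r) 0 - max (‖y‖ - r) 0) by ring,
      abs_neg]
    exact h0

theorem cut_abs_le {r : ℝ} {g : X → ℝ} (w : X) : |cut r g w| ≤ |g w| := by
  unfold cut
  have h0 : 0 ≤ max (‖w‖ - r) 0 := le_max_right _ _
  generalize max (‖w‖ - r) 0 = t at *
  rw [abs_le]
  constructor
  · apply le_max_of_le_left
    apply le_min
    · exact neg_abs_le _
    · linarith [abs_nonneg (g w)]
  · apply max_le
    · exact (min_le_left _ _).trans (le_abs_self _)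
    · linarith [abs_nonneg (g w)]

theorem cut_abs_le' {r : ℝ} {g : X → ℝ} (w : X) : |cut r g w| ≤ max (‖w‖ - r) 0 := by
  unfold cut
  have h0 : 0 ≤ max (‖w‖ - r) 0 := le_max_right _ _
  generalize max (‖w‖ - r) 0 = t at *
  rw [abs_le]
  constructor
  · exact le_max_right _ _
  · apply max_le
    · exact min_le_right _ _
    · linarith

theorem cut_eq {r : ℝ} {g : X → ℝ} {w : X} (h : |g w| ≤ ‖w‖ - r) : cut r g w = g w := by
  unfold cut
  have h0 : 0 ≤ ‖w‖ - r := (abs_nonneg _).trans h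
  rw [max_eq_left h0]
  rw [abs_le] at h
  rw [min_eq_left h.2, max_eq_left h.1]

theorem cut_near {r : ℝ} (hr : 0 ≤ r) {g : X → ℝ} {w : X} (h : |g w| ≤ ‖w‖) :
    |cut r g w - g w| ≤ r := by
  unfold cut
  have h0 : ‖w‖ - r ≤ max (‖w‖ - r) 0 := le_max_left _ _
  have h1 : 0 ≤ max (‖w‖ - r) 0 := le_max_right _ _
  generalize max (‖w‖ - r) 0 = t at *
  rw [abs_le] at h ⊢
  constructor
  · have : g w - r ≤ max (min (g w) t) (-t) := by
      apply le_max_of_le_left
      apply le_min <;> linarith [h.2]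
    linarith
  · have : max (min (g w) t) (-t) ≤ g w + r := by
      apply max_le
      · exact (min_le_left _ _).trans (by linarith)
      · linarith [h.1]
    linarith

/-! ### the family -/

theorem family (hP : LProj P) {θ : ℝ} (hθ0 : 0 < θ) (hθ1 : θ < 1) :
    ∃ k : ℕ, ∃ ψ : Ordinal.{0} → X → ℝ, (∀ w, Cont (fun γ => ψ γ w) (ω^k)) ∧
      (∀ γ ≤ (ω : Ordinal.{0})^k, Lip (ψ γ)) ∧
      ∀ x y : X, ∃ γ ≤ (ω : Ordinal.{0})^k, (1 - 3*θ) * ‖x - y‖ ≤ ψ γ x - ψ γ y := by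
  classical
  obtain ⟨k, hk⟩ := exists_nat_ge (1/θ^2)
  have hθ2 : 0 < θ^2 := by positivity
  have hk1 : 1 ≤ k * θ^2 := by rwa [div_le_iff₀ hθ2] at hk
  have hkpos : 0 < k := by
    rcases Nat.eq_zero_or_pos k with h | h
    · rw [h] at hk1; norm_num at hk1
    · exact h
  have hkR : (0:ℝ) < k := by exact_mod_cast hkpos
  have hFk : 1 - θ ≤ (F θ)^[k] 0 := by
    have := F_iter_lower hθ0.le hθ1.le k
    rwa [min_eq_left (by linarith)] at this
  -- the trees at each scale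
  have hpos : ∀ m : ℤ, (0:ℝ) < 2^m := fun m => by positivity
  have htree := fun i : ℤ × ℕ => tree hP (A := 4 * 2^i.1) (θ := θ) (R := (i.2 + 1) * 2^i.1)
    (e := θ * 2^i.1 / (2*(k+1))) hθ0.le hθ1.le (by positivity) (by positivity) k (fun _ => 0) 0 0
    (fun x y => by simp) (fun w => by simp)
  choose φ hφc hφtop hφprop hφcov using htree
  have hφ0 : ∀ i, ∀ γ ≤ (ω : Ordinal.{0})^k, φ i γ 0 = 0 := fun i γ hγ =>
    (hφprop i γ hγ).2.2 0 (hP.zero 0)
  have hφle : ∀ i, ∀ γ ≤ (ω : Ordinal.{0})^k, ∀ w, |φ i γ w| ≤ ‖w‖ := by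
    intro i γ hγ w
    have := (hφprop i γ hγ).1 w 0
    rwa [hφ0 i γ hγ, sub_zero, sub_zero] at this
  let r : ℤ × ℕ → ℝ := fun i => 2^i.1 * max (θ/2) (i.2 - (4*k+2))
  have hWpos : (0 : Ordinal.{0}) < ω^k := pow_pos Ordinal.omega0_pos _
  obtain ⟨ψ, hψc, hψtop, hψval, hψex⟩ := glue (ω^k) hWpos (fun i γ => cut (r i) (φ i γ))
    (by
      intro i w
      apply (hφc i w).comp_dist
      intro γ γ'
      unfold cut
      have h1 : |min (φ i γ w) (max (‖w‖ - r i) 0) - min (φ i γ' w) (max (‖w‖ - r i) 0)|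
          ≤ |φ i γ w - φ i γ' w| := by
        have := abs_min_sub_min_le_max (φ i γ w) (max (‖w‖ - r i) 0) (φ i γ' w) (max (‖w‖ - r i) 0)
        simpa using this
      have h2 := abs_max_sub_max_le_max (min (φ i γ w) (max (‖w‖ - r i) 0)) (-max (‖w‖ - r i) 0)
        (min (φ i γ' w) (max (‖w‖ - r i) 0)) (-max (‖w‖ - r i) 0)
      rw [sub_self, abs_zero] at h2
      exact h2.trans (max_le h1 (abs_nonneg _)))
    (fun _ => 0)
    (by
      intro w ε hε
      have ha : 0 < ε / (4*k) := by positivity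
      obtain ⟨N1, hN1⟩ := exists_pow_lt_of_lt_one ha (show (1/2 : ℝ) < 1 by norm_num)
      obtain ⟨N2, hN2⟩ := pow_unbounded_of_one_lt (2*‖w‖/θ) (show (1:ℝ) < 2 by norm_num)
      obtain ⟨N3, hN3⟩ := exists_nat_gt (‖w‖ / (ε / (4*k)) + (4*k+2))
      have hfin : (Set.Icc (-(N1:ℤ)) N2 ×ˢ Set.Iic N3).Finite :=
        (Set.finite_Icc _ _).prod (Set.finite_Iic _)
      apply hfin.subset
      rintro ⟨m, n⟩ ⟨γ, hγ, hle⟩
      rw [sub_zero] at hle
      have h1 := hle.trans (cut_abs_le (r := r (m,n)) (g := φ (m,n) γ) w)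
      have h2 := hle.trans (cut_abs_le' (r := r (m,n)) (g := φ (m,n) γ) w)
      have h3 := (hφprop (m,n) γ hγ).2.1 w
      simp only [zero_add] at h3
      have hm := hpos m
      -- lower bound for 2^m
      have h4 : ε / (4*k) ≤ 2^m := by
        rw [div_le_iff₀ (by positivity)]; linarith
      have h5 : r (m, n) < ‖w‖ := by
        by_contra hcon
        push Not at hcon
        rw [max_eq_right (by linarith)] at h2
        linarith
      have h6 : 2^m * (θ/2) ≤ r (m,n) := mul_le_mul_of_nonneg_left (le_max_left _ _) hm.le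
      have h7 : 2^m * ((n:ℝ) - (4*k+2)) ≤ r (m,n) := mul_le_mul_of_nonneg_left (le_max_right _ _) hm.le
      refine ⟨⟨?_, ?_⟩, ?_⟩
      · have h8 : (2:ℝ)^(-(N1:ℤ)) < 2^m := by
          rw [zpow_neg, zpow_natCast, ← inv_pow]
          calc ((2:ℝ)⁻¹)^N1 = (1/2)^N1 := by norm_num
            _ < _ := hN1.trans_le h4
        exact ((zpow_lt_zpow_iff_right₀ (by norm_num : (1:ℝ) < 2)).mp h8).le
      · have h8 : (2:ℝ)^m < 2^(N2:ℤ) := by
          rw [zpow_natCast]
          refine lt_of_lt_of_le ?_ hN2.le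
          rw [lt_div_iff₀ hθ0]; linarith
        exact ((zpow_lt_zpow_iff_right₀ (by norm_num : (1:ℝ) < 2)).mp h8).le
      · simp only [Set.mem_Iic]
        have h8 : (n:ℝ) < ‖w‖ / (ε/(4*k)) + (4*k+2) := by
          have h9 : 2^m * ((n:ℝ) - (4*k+2)) < ‖w‖ := lt_of_le_of_lt h7 h5
          have h10 : (n:ℝ) - (4*k+2) < ‖w‖ / (ε/(4*k)) := by
            rw [lt_div_iff₀ ha]
            rcases le_total ((n:ℝ) - (4*k+2)) 0 with hneg | hnn
            · rcases eq_or_lt_of_le (norm_nonneg w) with hw0 | hw0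
              · exfalso
                rw [← hw0] at h5
                have : 0 < 2^m * (θ/2) := by positivity
                linarith
              · have : ((n:ℝ) - (4*k+2)) * (ε/(4*k)) ≤ 0 := mul_nonpos_of_nonpos_of_nonneg hneg ha.le
                linarith
            · calc ((n:ℝ) - (4*k+2)) * (ε/(4*k)) ≤ ((n:ℝ) - (4*k+2)) * 2^m :=
                    mul_le_mul_of_nonneg_left h4 hnn
                _ < ‖w‖ := by linarith [mul_comm ((n:ℝ) - (4*k+2)) (2^m)]
          linarith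
        have : (n:ℝ) < N3 := h8.trans hN3
        exact_mod_cast this.le)
  refine ⟨k+1, ψ, ?_, ?_, ?_⟩
  · rw [pow_succ]; exact hψc
  · intro γ hγ
    rw [pow_succ] at hγ
    rcases hψval γ hγ with h | ⟨i, γ', hγ', h⟩
    · rw [h]; intro x y; simp
    · rw [h]; exact cut_lip (hφprop i γ' hγ').1
  · intro x y
    rw [pow_succ]
    by_cases hxy : x = y
    · refine ⟨ω^k * ω, le_refl _, ?_⟩
      rw [hxy]; simp
    have hd : 0 < ‖x - y‖ := norm_pos_iff.mpr (sub_ne_zero.mpr hxy)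
    obtain ⟨m, hm1, hm2⟩ : ∃ m : ℤ, (2:ℝ)^m ≤ ‖x - y‖ ∧ ‖x - y‖ < 2^(m+1) := by
      refine ⟨Int.log 2 ‖x - y‖, ?_, ?_⟩
      · exact_mod_cast Int.zpow_log_le_self (by norm_num : 1 < 2) hd
      · exact_mod_cast Int.lt_zpow_succ_log_self (by norm_num : 1 < 2) ‖x - y‖
    have hm := hpos m
    have hm2' : ‖x - y‖ < 2 * 2^m := by
      rw [zpow_add_one₀ (by norm_num)] at hm2; linarith
    obtain ⟨n, hn⟩ : ∃ n : ℕ, n = ⌊‖x‖ / 2^m⌋₊ := ⟨_, rfl⟩
    have hn1 : n * 2^m ≤ ‖x‖ := by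
      rw [← le_div_iff₀ hm, hn]; exact Nat.floor_le (by positivity)
    have hn2 : ‖x‖ ≤ (n+1) * 2^m := by
      rw [← div_le_iff₀ hm, hn]; exact (Nat.lt_floor_add_one _).le
    obtain ⟨j, hj, p, hch, hp⟩ := exists_chain hP hθ0 hθ1 k (x, y)
    obtain ⟨b0, b1⟩ := F_iter_bounds hθ0.le hθ1.le (k - j)
    obtain ⟨γ, hγ0, hγ1, hγ⟩ := hφcov (m, n) j hj p (x, y) ((F θ)^[k-j] 0) 0 hch hn2
      (by simp only; linarith) b0 b1 (le_refl _) (by
        rcases hp with h | h
        · rw [h]; simp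
        · rw [h]; simp)
    rw [← Function.iterate_add_apply, Nat.add_sub_cancel' hj] at hγ
    simp only at hγ
    obtain ⟨γ', hγ'1, _, hγ'⟩ := hψex (m, n) γ hγ0 hγ1
    refine ⟨γ', hγ'1, ?_⟩
    rw [hγ']
    -- total error
    have hFd : (1-θ) * ‖x - y‖ ≤ (F θ)^[k] 0 * ‖x - y‖ := mul_le_mul_of_nonneg_right hFk hd.le
    have herr : 2 * (j:ℝ) * (θ * 2^m / (2*(k+1))) ≤ θ * 2^m := by
      have hjk : (j:ℝ) ≤ k := by exact_mod_cast hj
      rw [mul_div_assoc', div_le_iff₀ (by positivity)]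
      have : 0 < θ * 2^m := by positivity
      nlinarith
    have hθm : θ * 2^m ≤ θ * ‖x - y‖ := mul_le_mul_of_nonneg_left hm1 hθ0.le
    have hB := (hφprop (m,n) γ hγ1).2.1
    simp only [zero_add] at hB
    have hle := hφle (m,n) γ hγ1
    by_cases hcase : θ/2 ≤ (n:ℝ) - (4*k+2)
    · have hr : r (m,n) = 2^m * ((n:ℝ) - (4*k+2)) := by
        simp only [r]; rw [max_eq_right hcase]
      have hx : cut (r (m,n)) (φ (m,n) γ) x = φ (m,n) γ x := by
        apply cut_eq
        have := hB x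
        rw [hr]
        nlinarith
      have hy : cut (r (m,n)) (φ (m,n) γ) y = φ (m,n) γ y := by
        apply cut_eq
        have := hB y
        have h1 : ‖x‖ ≤ ‖y‖ + ‖x - y‖ := by
          have := norm_add_le y (x - y)
          rwa [add_sub_cancel] at this
        rw [hr]
        nlinarith
      rw [hx, hy]
      have := mul_pos hθ0 hd
      linarith
    · push Not at hcase
      have hr : r (m,n) = 2^m * (θ/2) := by
        simp only [r]; rw [max_eq_left hcase.le]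
      have hr0 : 0 ≤ r (m,n) := by rw [hr]; positivity
      have hx := abs_le.mp (cut_near hr0 (hle x))
      have hy := abs_le.mp (cut_near hr0 (hle y))
      rw [hr] at hx hy
      rw [hr]
      linarith [hx.1, hy.2]

end Pool.Agent.H51.L1Embed
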