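import Mathlib
import Pool.Agent.H51.L1Embed

set_option autoImplicit false

namespace Pool.Agent.H51.L1Final

open Set Filter Topology Metric
open scoped Ordinal ENNReal
open Pool.Agent.H51.OrdGlue Pool.Agent.H51.L1Tree Pool.Agent.H51.L1Embed

/-- real `ℓ₁` -/
abbrev L1 : Type := lp (fun _ : ℕ => ℝ) 1

theorem norm_eq (x : L1) : ‖x‖ = ∑' i, |x i| := by
  rw [lp.norm_eq_tsum_rpow (by norm_num)]
  simp

theorem summ (x : L1) : Summable (fun i => |x i|) := by
  have := (lp.memℓp x).summable (by norm_num)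
  simpa using this

/-- truncation to the first `M` coordinates -/
noncomputable def trunc (M : ℕ) (x : L1) : L1 :=
  ⟨fun i => if i < M then x i else 0, by
    apply memℓp_gen
    apply summable_of_ne_finset_zero (s := Finset.range M)
    intro i hi
    rw [Finset.mem_range] at hi
    simp [hi]⟩

theorem trunc_apply (M : ℕ) (x : L1) (i : ℕ) : (trunc M x) i = if i < M then x i else 0 := rfl

theorem coord_le (x : L1) (i : ℕ) : |x i| ≤ ‖x‖ := by
  rw [norm_eq]
  exact (summ x).le_tsum i (fun _ _ => abs_nonneg _)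

theorem trunc_norm (M : ℕ) (x : L1) : ‖trunc M x‖ = ∑ i ∈ Finset.range M, |x i| := by
  rw [norm_eq, tsum_eq_sum (s := Finset.range M)]
  · apply Finset.sum_congr rfl
    intro i hi
    rw [Finset.mem_range] at hi
    simp [trunc_apply, hi]
  · intro i hi
    rw [Finset.mem_range] at hi
    simp [trunc_apply, hi]

theorem trunc_sub (M : ℕ) (x y : L1) : trunc M (x - y) = trunc M x - trunc M y := by
  ext i
  simp only [trunc_apply, lp.coeFn_sub, Pi.sub_apply]
  split_ifs <;> simp

theorem trunc_add_norm (M : ℕ) (x : L1) : ‖x‖ = ‖trunc M x‖ + ‖x - trunc M x‖ := by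
  rw [norm_eq, norm_eq, norm_eq, ← (summ _).tsum_add (summ _)]
  apply tsum_congr
  intro i
  simp only [trunc_apply, lp.coeFn_sub, Pi.sub_apply]
  split_ifs <;> simp

theorem lproj : LProj (X := L1) trunc where
  sub := trunc_sub
  norm_add := trunc_add_norm
  comp := by
    intro M N x
    ext i
    simp only [trunc_apply, lt_min_iff]
    by_cases h1 : i < M <;> by_cases h2 : i < N <;> simp [h1, h2]
  zero := by
    intro x; ext i; simp [trunc_apply]
  tendsto := by
    intro x
    have h : ∀ M, ‖x - trunc M x‖ = ‖x‖ - ∑ i ∈ Finset.range M, |x i| := by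
      intro M
      have h1 := trunc_add_norm M x
      rw [← trunc_norm]; linarith
    simp_rw [h]
    have h2 := (summ x).hasSum.tendsto_sum_nat
    rw [← norm_eq] at h2
    have h3 := h2.const_sub ‖x‖
    rwa [sub_self] at h3
  tb := by
    intro M R
    let G : (Fin M → ℝ) → L1 := fun v => ∑ i : Fin M, v i • (lp.single 1 (i : ℕ) (1:ℝ) : L1)
    have hG : Continuous G := by
      apply continuous_finset_sum
      intro i _
      exact (continuous_apply i).smul continuous_const
    have hK : IsCompact (Set.univ.pi (fun _ : Fin M => Icc (-R) R)) :=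
      isCompact_univ_pi (fun _ => isCompact_Icc)
    refine (hK.image hG).totallyBounded.subset ?_
    rintro _ ⟨x, hx, rfl⟩
    refine ⟨fun i => x i, ?_, ?_⟩
    · intro i _
      have h1 := coord_le x i
      have h2 : ‖x‖ ≤ R := by simpa using hx
      exact abs_le.mp (h1.trans h2)
    · ext i
      simp only [G, lp.coeFn_sum, Finset.sum_apply, lp.coeFn_smul, Pi.smul_apply, smul_eq_mul,
        trunc_apply]
      by_cases hi : i < M
      · rw [if_pos hi, Finset.sum_eq_single ⟨i, hi⟩]
        · simp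
        · intro b _ hb
          have : (b : ℕ) ≠ i := fun h => hb (Fin.ext h)
          simp [lp.single_apply, Pi.single_apply, this.symm]
        · simp
      · rw [if_neg hi]
        apply Finset.sum_eq_zero
        intro b _
        have : i ≠ (b : ℕ) := fun h => hi (h ▸ b.2)
        simp [lp.single_apply, Pi.single_apply, this]

/-- the elementary continuity gives genuine continuity after clamping -/
theorem Cont.continuous {f : Ordinal.{0} → ℝ} {Ω : Ordinal.{0}} (hf : Cont f Ω) :
    Continuous (fun γ : Ordinal.{0} => f (min γ Ω)) := by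
  rw [continuous_iff_continuousAt]
  intro γ
  rw [Metric.continuousAt_iff']
  intro ε hε
  rcases eq_or_ne γ 0 with rfl | hγ0
  · have : 𝓝 (0 : Ordinal.{0}) = pure 0 := by
      rw [SuccOrder.nhds_eq_pure]
      exact Order.not_isSuccLimit_bot
    rw [this]
    simpa using hε
  · have hpos : 0 < γ := pos_iff_ne_zero.mpr hγ0
    rw [(SuccOrder.hasBasis_nhds_Ioc_of_exists_lt ⟨0, hpos⟩).eventually_iff]
    rcases le_or_gt γ Ω with hle | hlt
    · obtain ⟨a, ha, h⟩ := hf γ hle hγ0 ε hε
      refine ⟨a, ha, ?_⟩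
      intro γ' hγ'
      rw [min_eq_left hle, min_eq_left (hγ'.2.trans hle), Real.dist_eq]
      exact h γ' hγ'.1 hγ'.2
    · refine ⟨Ω, hlt, ?_⟩
      intro γ' hγ'
      rw [min_eq_right hlt.le, min_eq_right hγ'.1.le]
      simpa using hε

instance compactIic (Ω : Ordinal.{0}) : CompactSpace (Set.Iic Ω) := by
  rw [← isCompact_iff_compactSpace, ← Set.Icc_bot]
  exact isCompact_Icc

/-- the main theorem: `ℓ₁` almost isometrically embeds into `C([0, ω^ω])` -/
theorem main :
    ∀ ε : ℝ, 0 < ε →
      ∃ f : lp (fun _ : ℕ => ℝ) 1 →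
          BoundedContinuousFunction (Set.Iic (Ordinal.omega0 ^ Ordinal.omega0 : Ordinal.{0})) ℝ,
        ∃ r : ℝ, 0 < r ∧
          ∀ x y : lp (fun _ : ℕ => ℝ) 1,
            r * dist x y ≤ dist (f x) (f y) ∧
              dist (f x) (f y) ≤ (1 + ε) * r * dist x y := by
  intro ε hε
  obtain ⟨θ, hθ0, hθ1, hθε⟩ : ∃ θ : ℝ, 0 < θ ∧ θ ≤ 1/6 ∧ 1 ≤ (1 + ε) * (1 - 3*θ) := by
    refine ⟨min (1/6) (ε/(3*(1+ε))), by positivity, min_le_left _ _, ?_⟩
    have h1 : min (1/6) (ε/(3*(1+ε))) ≤ ε/(3*(1+ε)) := min_le_right _ _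
    have h2 : (1+ε) * (3 * (ε/(3*(1+ε)))) = ε := by field_simp
    have h3 : (1+ε) * (3 * min (1/6) (ε/(3*(1+ε)))) ≤ (1+ε) * (3 * (ε/(3*(1+ε)))) := by
      apply mul_le_mul_of_nonneg_left _ (by linarith); linarith
    linarith
  obtain ⟨k, ψ, hc, hl, hcov⟩ := family lproj hθ0 (by linarith : θ < 1)
  have hcont : ∀ x : L1, Continuous (fun γ : Set.Iic (Ordinal.omega0 ^ Ordinal.omega0 : Ordinal.{0}) =>
      ψ (min (γ : Ordinal.{0}) (ω^k)) x) := fun x =>
    (Cont.continuous (hc x)).comp continuous_subtype_val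
  refine ⟨fun x => BoundedContinuousFunction.mkOfCompact ⟨_, hcont x⟩, 1 - 3*θ, by linarith, ?_⟩
  intro x y
  have hd : dist x y = ‖x - y‖ := dist_eq_norm x y
  constructor
  · obtain ⟨γ, hγ, h⟩ := hcov x y
    have hle : γ ≤ (Ordinal.omega0 ^ Ordinal.omega0 : Ordinal.{0}) := by
      refine hγ.trans ?_
      rw [← Ordinal.opow_natCast]
      exact Ordinal.opow_le_opow_right Ordinal.omega0_pos (Ordinal.natCast_lt_omega0 k).le
    have h1 := BoundedContinuousFunction.dist_coe_le_dist
      (f := BoundedContinuousFunction.mkOfCompact ⟨_, hcont x⟩)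
      (g := BoundedContinuousFunction.mkOfCompact ⟨_, hcont y⟩) ⟨γ, hle⟩
    refine le_trans ?_ h1
    rw [hd, Real.dist_eq]
    refine h.trans (le_trans (le_abs_self _) ?_)
    simp only [BoundedContinuousFunction.mkOfCompact_apply, ContinuousMap.coe_mk]
    rw [min_eq_left hγ]
  · have h2 : dist (BoundedContinuousFunction.mkOfCompact ⟨_, hcont x⟩)
        (BoundedContinuousFunction.mkOfCompact ⟨_, hcont y⟩) ≤ ‖x - y‖ := by
      rw [BoundedContinuousFunction.dist_le (norm_nonneg _)]
      intro γ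
      simp only [BoundedContinuousFunction.mkOfCompact_apply, ContinuousMap.coe_mk]
      rw [Real.dist_eq]
      exact hl _ (min_le_right _ _) x y
    refine h2.trans ?_
    rw [hd]
    have := norm_nonneg (x - y)
    nlinarith

end Pool.Agent.H51.L1Final
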